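import Pool.Agent.UNC.St
import Pool.Agent.MldGeo.QAT

/-!
# Centres of a divisor over `X` and of its image over the quotient
-/

set_option autoImplicit false

namespace UNC

open MldGeo NDQ

noncomputable section

namespace THT_aux

variable {n : ℕ}

/-- A maximal ideal: an element outside has an inverse modulo the ideal. -/
theorem inv_mod (X : Germ n) {a : X.R} (ha : a ∉ X.m) : ∃ a' : X.R, a * a' - 1 ∈ X.m := by
  have h1 := X.max.exists_inv ha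
  obtain ⟨y, i, hi, h⟩ := h1
  refine ⟨y, ?_⟩
  have h2 : a * y - 1 = -i := by
    rw [← h]
    ring
  rw [h2]
  exact X.m.neg_mem hi

theorem through_of_at (X : Germ n) (w : DivVal n X.K) (h : X.At w) : X.Through w := by
  obtain ⟨h1, h2⟩ := h
  refine ⟨h1, fun a ha => ?_⟩
  by_contra hne
  have h3 := h1 a
  have hpos : 0 < w.ord (a : X.K) := lt_of_le_of_ne h3 (Ne.symm hne)
  obtain ⟨a', h4⟩ := inv_mod X ha
  have h5 : w.Ge 1 ((a : X.K) * (a' : X.K)) :=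
    DivVal.Ge.mul_right (DivVal.Ge.of_le (by omega)) (DivVal.Ge.of_le (h1 a'))
  have h6 : w.Ge 1 (((a * a' - 1 : X.R)) : X.K) := by
    by_cases h0 : a * a' - 1 = 0
    · rw [h0]
      exact Or.inl rfl
    · refine DivVal.Ge.of_le ?_
      have := h2 _ h4 h0
      omega
  have h7 : w.Ge 1 (1 : X.K) := by
    have e : (1 : X.K) = (a : X.K) * (a' : X.K) - (((a * a' - 1 : X.R)) : X.K) := by
      push_cast
      ring
    rw [e]
    exact h5.sub h6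
  have h8 := h7.le one_ne_zero
  rw [DivVal.ord_one] at h8
  omega

/-- The norm of an element. -/
def nrm (X : Germ n) (G : Subgroup (X.K ≃ₐ[ℂ] X.K)) [Fintype G]
    (hR : ∀ g ∈ G, ∀ a ∈ X.R, g a ∈ X.R) (a : X.R) : X.R :=
  ∏ g : G, (⟨(g : X.K ≃ₐ[ℂ] X.K) a, hR g g.2 a a.2⟩ : X.R)

theorem nrm_coe (X : Germ n) (G : Subgroup (X.K ≃ₐ[ℂ] X.K)) [Fintype G]
    (hR : ∀ g ∈ G, ∀ a ∈ X.R, g a ∈ X.R) (a : X.R) :
    (nrm X G hR a : X.K) = ∏ g : G, (g : X.K ≃ₐ[ℂ] X.K) (a : X.K) := by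
  unfold nrm
  have h : ((∏ g : G, (⟨(g : X.K ≃ₐ[ℂ] X.K) a, hR g g.2 a a.2⟩ : X.R) : X.R) : X.K) =
      ∏ g : G, (((⟨(g : X.K ≃ₐ[ℂ] X.K) a, hR g g.2 a a.2⟩ : X.R)) : X.K) :=
    map_prod X.R.val _ _
  rw [h]

theorem nrm_fixed (X : Germ n) (G : Subgroup (X.K ≃ₐ[ℂ] X.K)) [Fintype G]
    (hR : ∀ g ∈ G, ∀ a ∈ X.R, g a ∈ X.R) (a : X.R) (h : X.K ≃ₐ[ℂ] X.K) (hG : h ∈ G) :
    h (nrm X G hR a : X.K) = (nrm X G hR a : X.K) := by
  rw [nrm_coe, map_prod]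
  refine Fintype.prod_equiv (Equiv.mulLeft (⟨h, hG⟩ : G)) _ _ fun g => ?_
  rfl

theorem nrm_not_mem (X : Germ n) (G : Subgroup (X.K ≃ₐ[ℂ] X.K)) [Fintype G]
    (hR : ∀ g ∈ G, ∀ a ∈ X.R, g a ∈ X.R)
    (hm : ∀ g ∈ G, ∀ a b : X.R, (b : X.K) = g a → a ∈ X.m → b ∈ X.m) (a : X.R)
    (ha : a ∉ X.m) : nrm X G hR a ∉ X.m := by
  intro h
  have hp : X.m.IsPrime := X.max.isPrime
  unfold nrm at h
  obtain ⟨g, -, hg⟩ := (hp.prod_mem_iff).1 h
  refine ha (hm (g : X.K ≃ₐ[ℂ] X.K)⁻¹ (G.inv_mem g.2) _ a ?_ hg)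
  show (a : X.K) = (g : X.K ≃ₐ[ℂ] X.K)⁻¹ ((g : X.K ≃ₐ[ℂ] X.K) (a : X.K))
  exact ((g : X.K ≃ₐ[ℂ] X.K).symm_apply_apply (a : X.K)).symm

end THT_aux

open THT_aux

theorem t_THT : S_THT := by
  intro n X Z G ι hq
  refine ⟨fun w z e hO => ?_, through_of_at X⟩
  obtain ⟨he, hO⟩ := hO
  have hfin := hq.finite
  have hft : Fintype G := Fintype.ofFinite G
  have he' : (0 : ℤ) < e := by exact_mod_cast he
  constructor
  · rintro ⟨h1, h2⟩
    refine ⟨fun b => ?_, fun b hb => ?_⟩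
    · have h3 := h1 ⟨ι b, (hq.mem_R b).1 b.2⟩
      change 0 ≤ w.ord (ι b) at h3
      rw [hO] at h3
      exact nonneg_of_mul_nonneg_right h3 he'
    · have h3 := h2 ⟨ι b, (hq.mem_R b).1 b.2⟩ (fun h => hb ((hq.mem_m b _ rfl).2 h))
      change w.ord (ι b) = 0 at h3
      rw [hO] at h3
      rcases mul_eq_zero.1 h3 with h4 | h4
      · omega
      · exact h4
  · rintro ⟨h1, h2⟩
    have key : ∀ (a : X.R) (k : ℕ), ∃ b : Z.R,
        (((QAT.chp X G hq.map_R a).coeff k : X.R) : X.K) = ι b := by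
      intro a k
      obtain ⟨b, hb⟩ := (hq.inv _).2 fun g hg => QAT.chp_coeff_fixed X G hq.map_R a k g hg
      refine ⟨⟨b, (hq.mem_R b).2 ?_⟩, hb.symm⟩
      rw [hb]
      exact ((QAT.chp X G hq.map_R a).coeff k).2
    have hnn : ∀ a : X.R, 0 ≤ w.ord a := by
      intro a
      by_cases ha : (a : X.K) = 0
      · rw [ha, w.ord_zero]
      refine QAT.bound w ha (fun k => ((QAT.chp X G hq.map_R a).coeff k : X.K))
        (QAT.chp_root X G hq.map_R a) fun k _ => ?_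
      obtain ⟨b, hb⟩ := key a k
      rw [hb]
      refine DivVal.Ge.of_le ?_
      rw [hO]
      exact mul_nonneg he'.le (h1 b)
    refine ⟨hnn, fun a ha => ?_⟩
    have ha0 : (a : X.K) ≠ 0 := by
      intro h
      apply ha
      have h' : a = 0 := Subtype.ext h
      rw [h']
      exact X.m.zero_mem
    obtain ⟨b, hb⟩ := (hq.inv _).2 fun g hg => nrm_fixed X G hq.map_R a g hg
    have hbR : b ∈ Z.R := by
      rw [hq.mem_R, hb]
      exact (nrm X G hq.map_R a).2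
    have hbm : (⟨b, hbR⟩ : Z.R) ∉ Z.m := by
      intro h
      exact nrm_not_mem X G hq.map_R hq.map_m a ha
        ((hq.mem_m ⟨b, hbR⟩ (nrm X G hq.map_R a) hb.symm).1 h)
    have h3 : w.ord (nrm X G hq.map_R a : X.K) = 0 := by
      rw [← hb, hO]
      have := h2 ⟨b, hbR⟩ hbm
      change z.ord b = 0 at this
      rw [this, mul_zero]
    rw [nrm_coe, DivVal.ord_prod] at h3
    swap
    · intro g _ h
      apply ha0
      exact (map_eq_zero_iff _ (g : X.K ≃ₐ[ℂ] X.K).injective).1 h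
    have h4 : ∀ g ∈ (Finset.univ : Finset G), 0 ≤ w.ord ((g : X.K ≃ₐ[ℂ] X.K) (a : X.K)) :=
      fun g _ => hnn ⟨(g : X.K ≃ₐ[ℂ] X.K) a, hq.map_R g g.2 a a.2⟩
    have h5 := (Finset.sum_eq_zero_iff_of_nonneg h4).1 h3 (1 : G) (Finset.mem_univ _)
    exact h5

end

end UNC
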