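import Pool.Agent.UNC.St

/-!
# UNC, module TRI: the ideals of the triple on the quotient
-/

set_option autoImplicit false

namespace UNC

open MldGeo NDQ

noncomputable section

namespace TRI_aux

variable {n : ℕ} {X Z : Germ n} {G : Subgroup (X.K ≃ₐ[ℂ] X.K)} {ι : Z.K →ₐ[ℂ] X.K}

/-- the inclusion of the rings of functions -/
def inc (hq : IsQuot X Z G ι) : Z.R →+* X.R :=
  (ι.toRingHom.comp Z.R.val.toRingHom).codRestrict X.R.toSubring
    (fun b => (hq.mem_R (b : Z.K)).1 b.2)

theorem inc_coe (hq : IsQuot X Z G ι) (b : Z.R) : ((inc hq b : X.R) : X.K) = ι b := rfl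

/-- the order is at least `k` -/
def Lo (w : DivVal n X.K) (k : ℤ) (a : X.R) : Prop := a = 0 ∨ k ≤ w.ord a

theorem lo_span (w : DivVal n X.K) (hw : X.Through w) (k : ℤ) (s : Set X.R)
    (hs : ∀ a ∈ s, Lo w k a) (a : X.R) (ha : a ∈ Ideal.span s) : Lo w k a := by
  have h0 : ∀ x : X.R, x ≠ 0 → (x : X.K) ≠ 0 := fun x hx h => hx (Subtype.ext h)
  refine Submodule.span_induction (p := fun x _ => Lo w k x) ?_ ?_ ?_ ?_ ha
  · exact fun x hx => hs x hx
  · exact Or.inl rfl
  · intro x y _ _ hx hy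
    rcases hx with rfl | hx
    · rw [zero_add]
      exact hy
    rcases hy with rfl | hy
    · rw [add_zero]
      exact Or.inr hx
    by_cases h1 : x = 0
    · rw [h1, zero_add]
      exact Or.inr hy
    by_cases h2 : y = 0
    · rw [h2, add_zero]
      exact Or.inr hx
    by_cases h3 : x + y = 0
    · exact Or.inl h3
    · right
      have h4 := w.ord_add (x : X.K) (y : X.K) (h0 x h1) (h0 y h2) (h0 (x + y) h3)
      exact (le_min hx hy).trans h4
  · intro c x _ hx
    rcases hx with rfl | hx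
    · rw [smul_zero]
      exact Or.inl rfl
    by_cases h1 : c = 0
    · rw [h1, zero_smul]
      exact Or.inl rfl
    by_cases h2 : x = 0
    · rw [h2, smul_zero]
      exact Or.inl rfl
    right
    have h3 := w.ord_mul (c : X.K) (x : X.K) (h0 c h1) (h0 x h2)
    have h4 : w.ord ((c • x : X.R) : X.K) = w.ord ((c : X.K) * (x : X.K)) := rfl
    rw [h4, h3]
    have h5 := hw.1 c
    omega

end TRI_aux

open TRI_aux in
theorem t_TRI : S_TRI := by
  intro n X Z G ι hq I s hs hI hI0
  have hι : Function.Injective ι := ι.toRingHom.injective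
  have hpre : ∀ a ∈ s, ∃ b : Z.R, inc hq b = a := by
    intro a ha
    obtain ⟨b, hb⟩ := (hq.inv (a : X.K)).2 (fun g hg => hs a ha g hg)
    have hbR : b ∈ Z.R := (hq.mem_R b).2 (by rw [hb]; exact a.2)
    exact ⟨⟨b, hbR⟩, Subtype.ext hb⟩
  have hmem : ∀ (a : X.R) (b : Z.R), a ∈ s → inc hq b = a → b ∈ I.comap (inc hq) := by
    intro a b ha hb
    rw [Ideal.mem_comap, hb, hI]
    exact Ideal.subset_span ha
  have hne : ∀ b : Z.R, b ≠ 0 → inc hq b ≠ 0 := by
    intro b hb h
    apply hb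
    apply Subtype.ext
    apply hι
    have h1 : ι (b : Z.K) = 0 := congrArg Subtype.val h
    rw [h1]
    exact (map_zero ι).symm
  have hex : ∃ b ∈ I.comap (inc hq), b ≠ 0 := by
    by_contra hcon
    apply hI0
    rw [hI, Ideal.span_eq_bot]
    intro a ha
    by_contra ha0
    obtain ⟨b, hb⟩ := hpre a ha
    apply hcon
    refine ⟨b, hmem a b ha hb, ?_⟩
    rintro rfl
    apply ha0
    rw [← hb]
    exact map_zero _
  refine ⟨I.comap (inc hq), ?_, ?_, ?_⟩
  · intro b
    rw [Ideal.mem_comap]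
    constructor
    · intro h
      exact ⟨inc hq b, h, rfl⟩
    · rintro ⟨a, ha, hab⟩
      have h1 : inc hq b = a := Subtype.ext hab.symm
      rw [h1]
      exact ha
  · obtain ⟨b, hb, hb0⟩ := hex
    intro h
    rw [h] at hb
    exact hb0 hb
  · intro w z e hw hov
    obtain ⟨he, hord⟩ := hov
    obtain ⟨b0, hb0, hb00⟩ := hex
    have heZ : (0 : ℤ) < e := by exact_mod_cast he
    have hz : ∀ b : Z.R, 0 ≤ z.ord b := by
      intro b
      have h1 := hw.1 (inc hq b)
      rw [inc_coe, hord] at h1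
      by_contra h2
      have h3 : z.ord (b : Z.K) < 0 := by omega
      nlinarith
    set SJ : Set ℤ := {k : ℤ | ∃ a ∈ I.comap (inc hq), a ≠ 0 ∧ z.ord (a : Z.K) = k} with hSJ
    have hJne : SJ.Nonempty := ⟨z.ord (b0 : Z.K), b0, hb0, hb00, rfl⟩
    have hJb : BddBelow SJ := by
      refine ⟨0, ?_⟩
      rintro k ⟨a, _, _, rfl⟩
      exact hz a
    obtain ⟨b1, hb1, hb10, hk1⟩ := Int.csInf_mem hJne hJb
    have hmin : ∀ b ∈ I.comap (inc hq), b ≠ 0 → sInf SJ ≤ z.ord (b : Z.K) := fun b hb hb0 =>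
      csInf_le hJb ⟨b, hb, hb0, rfl⟩
    have hlo : ∀ a ∈ I, Lo w (e * sInf SJ) a := by
      intro a ha
      rw [hI] at ha
      refine lo_span w hw _ s ?_ a ha
      intro a' ha'
      obtain ⟨b, hb⟩ := hpre a' ha'
      by_cases hb0 : b = 0
      · left
        rw [← hb, hb0]
        exact map_zero _
      · right
        rw [← hb, inc_coe, hord]
        exact mul_le_mul_of_nonneg_left (hmin b (hmem a' b ha' hb) hb0) heZ.le
    change sInf {k : ℤ | ∃ a ∈ I, a ≠ 0 ∧ w.ord (a : X.K) = k} = e * sInf SJ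
    apply le_antisymm
    · refine csInf_le ⟨e * sInf SJ, ?_⟩ ⟨inc hq b1, hb1, hne b1 hb10, ?_⟩
      · rintro k ⟨a, ha, ha0, rfl⟩
        rcases hlo a ha with h | h
        · exact absurd h ha0
        · exact h
      · rw [inc_coe, hord, hk1]
    · refine le_csInf ⟨_, inc hq b1, hb1, hne b1 hb10, rfl⟩ ?_
      rintro k ⟨a, ha, ha0, rfl⟩
      rcases hlo a ha with h | h
      · exact absurd h ha0
      · exact h

end

end UNC
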