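import Pool.Agent.UNC.ASM

/-!
# ASM2: assembly, second part
-/

set_option autoImplicit false

namespace UNC

open MldGeo NDQ MldAcc

noncomputable section

/-- The contributions of the elements which commute with a torus of complexity at most one. -/
def S_K3 : Prop := ∀ {n : ℕ} {X Y : Germ n} (G : Subgroup (X.K ≃ₐ[ℂ] X.K))
  (π : Y.K →ₐ[ℂ] X.K) (T : Triple X) (T' : Triple Y) (D : Set ℝ), 0 < n → IsQuot X Y G π →
  Crepant π T T' → T.LC → (∃ v, Y.At v) → ∀ g ∈ G, T.Effective → T.CoeffIn D → ∀ {m : ℕ}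
  (A : MldG.TorusAction X m), n ≤ m + 1 → A.InvTriple T → Comm A g →
  InvGen T (Subgroup.zpowers g) → ∃ q ∈ torSet n (cset D), Contrib π T' g q

/-- The theorem from its ingredients. -/
theorem asm (hTBAS : Stmt_TBAS) (hFRM : Stmt_FRM) (hFRA : Stmt_FRA) (hFSM : Stmt_FSM)
    (hFDL : Stmt_FDL) (hTXT : Stmt_TXT) (hUNQ : Stmt_UNQ) (hREG : Stmt_REG) (hDIV : Stmt_DIV)
    (hIDO : Stmt_IDO) (hLAU : Stmt_LAU) (hRATF : Stmt_RATF)
    (hQGAL : Stmt_QGAL) (hQAT : Stmt_QAT) (hPUL : Stmt_QPUL) (hPOW : Stmt_POW) (hSHF : Stmt_SHF)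
    (hQV : Stmt_QV) (hQLG : Stmt_QLG) (hTOR : Stmt_TOR) (hTDC : Stmt_TDC) (hMON : Stmt_QMON)
    (hINVP : Stmt_INVP) (hTQM : Stmt_TQM)
    (hWRD : S_WRD) (hPTH : S_PTH) (hLIN : S_LIN) (hCAN : S_CAN) (hJAC : S_JAC) (hREL : S_REL)
    (hPRD : S_PRD) (hLGD : S_LGD) (hIND : S_IND) (hNUL : S_NUL) (hLOV : S_LOV) (hLOW : S_LOW)
    (hHEN : S_HEN) (hGPT : S_GPT) (hSOL : S_SOL) (hEMB : S_EMB) (hDVG : S_DVG) (hMLO : S_MLO)
    (hROG : S_ROG) (hINR : S_INR) (hMUA : S_MUA) (hIDM : S_IDM) (hTQN : S_TQN) (hNDA : S_NDA)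
    (hLCN : S_LCN) (hNCO : S_NCO) (hTCO : S_TCO) (hFIN : S_FIN) (hACU : S_ACU)
    (hTAG : MldG.Stmt_TAG) (hDCC : S_DCC) (hK3 : S_K3) : S_ASM := by
  classical
  have hMUW : S_MUW := hMUA hFSM hTBAS hLAU hRATF hDIV hWRD hIND hREL hHEN hGPT hSOL hEMB hDVG
    hMLO hROG hINR
  intro n N D hD x hx hmono
  let S : Set ℝ := insert 0 (insert 1 D)
  have hS : S.IsWF := by
    have h1 : (insert 1 D : Set ℝ).IsWF := by
      rw [Set.insert_eq]
      exact Set.isWF_singleton.union hD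
    show (insert 0 (insert 1 D) : Set ℝ).IsWF
    rw [Set.insert_eq]
    exact Set.isWF_singleton.union h1
  have hD' : (insert 0 D : Set ℝ).IsWF := by
    rw [Set.insert_eq]
    exact Set.isWF_singleton.union hD
  let A : Option (Option (Option (Fin (N + 1)))) → Set ℝ := fun i => match i with
    | none => {0}
    | some none => torSet n (cset D)
    | some (some none) => tqSet n (insert 0 D)
    | some (some (some j)) => tqSet j S
  refine hACU A ?_ x (fun k => ?_) hmono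
  · rintro (_ | _ | _ | j) y hy
    · intro h
      have h1 := h (Nat.lt_succ_self 0)
      have h2 : y 0 = 0 := hy 0
      have h3 : y (Nat.succ 0) = 0 := hy _
      rw [h2, h3] at h1
      exact lt_irrefl _ h1
    · exact acc_torSet hTAG (hDCC D hD) y hy
    · exact TQ.acc_mldQ hD' y hy
    · exact TQ.acc_mldQ hS y hy
  · obtain ⟨X, Y, G, π, T, T', hQ, hC, hLC, hG, h⟩ := hx k
    rw [← h]
    by_cases hat : ∃ v, Y.At v
    · have hn : 0 < n := by
        rcases Nat.eq_zero_or_pos n with rfl | hn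
        · obtain ⟨v, -⟩ := hat
          exact (QFin.no_div Y v).elim
        · exact hn
      have : Finite G := hQ.finite
      have h1 : T'.mld ∈ ⋃ i, A i := by
        refine hFIN hQGAL hQAT G π T' _ hn hQ fun g hg => ?_
        rcases hG g hg with ⟨N', hN', r, f, z, c, b, M, hCI, hM, hb, hr, heig, hsemi⟩ |
            ⟨hE, hCo, hA | ⟨m, B, hm, hB, hc, hI⟩⟩
        · have hk : ∃ k : ℕ, 0 < k ∧ g ^ k = 1 := by
            have h1 := isOfFinOrder_of_finite (⟨g, hg⟩ : G)
            refine ⟨orderOf (⟨g, hg⟩ : G), h1.orderOf_pos, ?_⟩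
            have h2 := pow_orderOf_eq_one (⟨g, hg⟩ : G)
            exact congrArg Subtype.val h2
          obtain ⟨k, hk, hgk⟩ := hk
          obtain ⟨E, hE1, hE2⟩ := hNDA hTBAS hFRM hFRA hFSM hFDL hTXT hUNQ hREG hDIV hIDO hWRD hIND
            hNUL hLOV hLOW hREL hJAC hLIN hCAN hPRD hLGD hIDM hTQN X T g f z c b M k hn hk hgk hCI hM
            heig hsemi
          refine ⟨E.Q.mldQ, Set.mem_iUnion.2 ⟨some (some (some ⟨E.N, ?_⟩)), ?_⟩, hNCO hQGAL hQAT hPUL
            hLCN hWRD hPTH hMUW G π T T' hn hQ hC hLC g hg E⟩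
          · rw [hE1]
            omega
          · refine ⟨E.Q, (hLCN hWRD hPTH hMUW X T g E hn hLC).1, hE2 S ?_ ?_ ?_ ?_, rfl⟩
            · exact Set.mem_insert _ _
            · exact Set.mem_insert_of_mem _ (Set.mem_insert _ _)
            · intro j
              by_cases h0 : b j = 0
              · rw [h0]
                exact Set.mem_insert _ _
              · exact Set.mem_insert_of_mem _ (Set.mem_insert_of_mem _ (hb j h0))
            · intro j
              by_cases h0 : T.r j = 0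
              · rw [h0]
                exact Set.mem_insert _ _
              · exact Set.mem_insert_of_mem _ (Set.mem_insert_of_mem _ (hr j h0))
        · obtain ⟨q, hq, hq2⟩ := hTCO hQGAL hQAT hPUL hPOW hSHF hQV hQLG hTOR hTDC hMON hINVP hTQM
            G π T T' D hn hQ hC hLC g hg hE hCo hA
          exact ⟨q, Set.mem_iUnion.2 ⟨some (some none), hq⟩, hq2⟩
        · obtain ⟨q, hq, hq2⟩ := hK3 G π T T' D hn hQ hC hLC hat g hg hE hCo B hm hB hc hI
          exact ⟨q, Set.mem_iUnion.2 ⟨some none, hq⟩, hq2⟩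
      obtain ⟨i, hi⟩ := Set.mem_iUnion.1 h1
      exact ⟨i, hi⟩
    · refine ⟨none, ?_⟩
      have h2 : {a : ℝ | ∃ v, Y.At v ∧ T'.disc v = a} = ∅ := by
        ext a
        simp only [Set.mem_ofPred_eq, Set.mem_empty_iff_false, iff_false]
        rintro ⟨v, hv, -⟩
        exact hat ⟨v, hv⟩
      show T'.mld = 0
      unfold Triple.mld
      rw [h2, Real.sInf_empty]

end

end UNC
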