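import Pool.Agent.UNC.St

/-!
# Project UNC, module CON: the contribution of an element is the minimal log discrepancy of the
quotient by the cyclic group it generates.
-/

set_option autoImplicit false

namespace UNC

open MldGeo NDQ

noncomputable section

namespace CONT_aux

variable {n : ℕ} {X Y Z : Germ n} {π : Y.K →ₐ[ℂ] X.K} {ι : Z.K →ₐ[ℂ] X.K}

theorem disc_over {G : Subgroup (X.K ≃ₐ[ℂ] X.K)} {T : Triple X} {T' : Triple Y}
    (hPUL : Stmt_QPUL) (hn : 0 < n) (hQ : IsQuot X Y G π) (hC : Crepant π T T')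
    {w : DivVal n X.K} {v : DivVal n Y.K} {e : ℕ} (hw : X.Through w) (ho : Over π w v e) :
    T.disc w = e * T'.disc v := by
  unfold Triple.disc
  rw [hPUL X Y G π T T' hn hQ hC w v e hw ho, hC.ideals w v e hw ho]
  ring

theorem exp_eq_one_dvd {k : ℤ} {e : ℕ} (he : 0 < e)
    (h : Complex.exp (2 * Real.pi * Complex.I * k / e) = 1) : (e : ℤ) ∣ k := by
  obtain ⟨m, hm⟩ := Complex.exp_eq_one_iff.1 h
  have he' : (e : ℂ) ≠ 0 := by exact_mod_cast he.ne'
  have hpi : (2 * Real.pi * Complex.I : ℂ) ≠ 0 := Complex.two_pi_I_ne_zero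
  have h1 : (k : ℂ) = m * e := by
    have h2 : (2 * Real.pi * Complex.I : ℂ) * k = (2 * Real.pi * Complex.I : ℂ) * (m * e) := by
      field_simp at hm
      linear_combination (2 * Real.pi * Complex.I : ℂ) * hm
    exact mul_left_cancel₀ hpi h2
  refine ⟨m, ?_⟩
  have h3 : k = m * e := by exact_mod_cast h1
  rw [h3]
  ring

/-- The index of `w` over `Y` divides the index of `w` over `Z` for an inertia element `g`. -/
theorem dvd_of_inertia {w : DivVal n X.K} {z : DivVal n Z.K} {e ez : ℕ} (he : 0 < e)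
    (hoz : Over ι w z ez) {g : X.K ≃ₐ[ℂ] X.K} (hfix : ∀ b : Z.K, g (ι b) = ι b)
    (hg : ∀ a : X.K, a ≠ 0 → w.Ge (w.ord a + 1) (g a - algebraMap ℂ X.K
      (Complex.exp (2 * Real.pi * Complex.I * w.ord a / e)) * a)) : (e : ℤ) ∣ (ez : ℤ) := by
  obtain ⟨b, hb0, hb1⟩ := z.unif
  have hιb : ι b ≠ 0 := by
    intro h
    exact hb0 (ι.toRingHom.injective (by simpa using h))
  have h1 := hg (ι b) hιb
  have hord : w.ord (ι b) = ez := by rw [hoz.2 b, hb1, mul_one]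
  rw [hfix b] at h1
  by_cases hζ : Complex.exp (2 * Real.pi * Complex.I * w.ord (ι b) / e) = 1
  · have h2 := exp_eq_one_dvd he hζ
    rwa [hord] at h2
  · exfalso
    have h3 : ι b - algebraMap ℂ X.K
        (Complex.exp (2 * Real.pi * Complex.I * w.ord (ι b) / e)) * ι b =
        algebraMap ℂ X.K (1 - Complex.exp (2 * Real.pi * Complex.I * w.ord (ι b) / e)) * ι b := by
      rw [map_sub, map_one]
      ring
    rw [h3] at h1
    have h4 : (1 - Complex.exp (2 * Real.pi * Complex.I * w.ord (ι b) / e)) ≠ 0 :=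
      sub_ne_zero.2 (Ne.symm hζ)
    have h5 : algebraMap ℂ X.K (1 - Complex.exp (2 * Real.pi * Complex.I * w.ord (ι b) / e)) *
        ι b ≠ 0 := by
      refine mul_ne_zero (fun h => h4 ?_) hιb
      exact (algebraMap ℂ X.K).injective (by rw [h, map_zero])
    have h6 := h1.le h5
    rw [DivVal.ord_const_mul w h4] at h6
    omega

/-- The index of `w` over `Z` divides the index of `w` over `Y`. -/
theorem dvd_of_tower {w : DivVal n X.K} {z : DivVal n Z.K} {v : DivVal n Y.K} {e ez : ℕ}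
    (hoz : Over ι w z ez) (hov : Over π w v e) (htow : ∀ c : Y.K, ∃ b : Z.K, ι b = π c) :
    (ez : ℤ) ∣ (e : ℤ) := by
  obtain ⟨c, -, hc1⟩ := v.unif
  obtain ⟨b, hb⟩ := htow c
  refine ⟨z.ord b, ?_⟩
  rw [← hoz.2 b, hb, hov.2 c, hc1, mul_one]

end CONT_aux

open CONT_aux in
theorem t_CON : S_CON := by
  intro hQGAL hQAT hPUL hTHT n X Y Z G π ι T T' TZ hn hQ hC hLC g hg hQZ hCZ hex
  obtain ⟨hy1, hy2, hy3, -⟩ := hQGAL X Y G π hn hQ
  obtain ⟨hz1, hz2, -, -⟩ := hQGAL X Z (Subgroup.zpowers g) ι hn hQZ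
  have hthr : ∀ w : DivVal n X.K, X.At w → X.Through w := (hTHT X Z (Subgroup.zpowers g) ι hQZ).2
  have hfix : ∀ b : Z.K, g (ι b) = ι b := fun b =>
    (hQZ.inv (ι b)).1 ⟨b, rfl⟩ g (Subgroup.mem_zpowers g)
  have hle : Subgroup.zpowers g ≤ G := by
    rw [Subgroup.zpowers_le]
    exact hg
  have htow : ∀ c : Y.K, ∃ b : Z.K, ι b = π c := fun c =>
    (hQZ.inv (π c)).2 fun h hh => (hQ.inv (π c)).1 ⟨c, rfl⟩ h (hle hh)
  have hdz : ∀ (w : DivVal n X.K) (z : DivVal n Z.K) (e : ℕ), X.At w → Over ι w z e →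
      T.disc w = e * TZ.disc z := fun w z e hw ho =>
    disc_over hPUL hn hQZ hCZ (hthr w hw) ho
  have hdv : ∀ (w : DivVal n X.K) (v : DivVal n Y.K) (e : ℕ), X.At w → Over π w v e →
      T.disc w = e * T'.disc v := fun w v e hw ho =>
    disc_over hPUL hn hQ hC (hthr w hw) ho
  have hnn : ∀ z : DivVal n Z.K, Z.At z → 0 ≤ TZ.disc z := by
    intro z hz
    obtain ⟨w, e, ho⟩ := hz2 z
    have hw := (hQAT X Z _ ι hQZ w z e ho).2 hz
    have h1 := hLC w (hthr w hw)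
    rw [hdz w z e hw ho] at h1
    have he : (0 : ℝ) < e := by exact_mod_cast ho.1
    exact nonneg_of_mul_nonneg_right h1 he
  have hbdd : BddBelow {a : ℝ | ∃ z, Z.At z ∧ TZ.disc z = a} := by
    refine ⟨0, ?_⟩
    rintro _ ⟨z, hz, rfl⟩
    exact hnn z hz
  have hne : {a : ℝ | ∃ z, Z.At z ∧ TZ.disc z = a}.Nonempty := by
    obtain ⟨v, hv⟩ := hex
    obtain ⟨w, e, ho⟩ := hy2 v
    have hw := (hQAT X Y G π hQ w v e ho).2 hv
    obtain ⟨z, ez, hoz⟩ := hz1 w
    exact ⟨_, z, (hQAT X Z _ ι hQZ w z ez hoz).1 hw, rfl⟩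
  refine ⟨?_, ?_⟩
  · intro w v e hw ho hg1 hg2
    obtain ⟨z, ez, hoz⟩ := hz1 w
    have hz := (hQAT X Z _ ι hQZ w z ez hoz).1 hw
    have h1 : (e : ℤ) ∣ (ez : ℤ) := dvd_of_inertia ho.1 hoz hfix hg2
    have h2 : (ez : ℤ) ∣ (e : ℤ) := dvd_of_tower hoz ho htow
    have h3 : e = ez := Nat.dvd_antisymm (Int.natCast_dvd_natCast.1 h1)
      (Int.natCast_dvd_natCast.1 h2)
    subst h3
    have h4 := hdz w z e hw hoz
    rw [hdv w v e hw ho] at h4
    have he : (0 : ℝ) < e := by exact_mod_cast ho.1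
    rw [mul_left_cancel₀ he.ne' h4]
    exact csInf_le hbdd ⟨z, hz, rfl⟩
  · intro ε hε
    obtain ⟨_, ⟨z, hz, rfl⟩, hlt⟩ := exists_lt_of_csInf_lt hne (lt_add_of_pos_right _ hε)
    obtain ⟨w, ez, hoz⟩ := hz2 z
    have hw := (hQAT X Z _ ι hQZ w z ez hoz).2 hz
    obtain ⟨v, e, ho⟩ := hy1 w
    have hv := (hQAT X Y G π hQ w v e ho).1 hw
    refine ⟨v, hv, lt_of_le_of_lt ?_ hlt⟩
    have h2 : (ez : ℤ) ∣ (e : ℤ) := dvd_of_tower hoz ho htow
    obtain ⟨k, hk⟩ := Int.natCast_dvd_natCast.1 h2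
    have hk1 : 1 ≤ k := by
      rcases Nat.eq_zero_or_pos k with h | h
      · exfalso
        rw [h, mul_zero] at hk
        exact ho.1.ne' hk
      · exact h
    have h4 := hdz w z ez hw hoz
    have h0 := hLC w (hthr w hw)
    rw [hdv w v e hw ho] at h4 h0
    have he : (0 : ℝ) < e := by exact_mod_cast ho.1
    have hez : (0 : ℝ) < ez := by exact_mod_cast hoz.1
    have h5 : 0 ≤ T'.disc v := nonneg_of_mul_nonneg_right h0 he
    have h6 : (e : ℝ) = ez * k := by exact_mod_cast hk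
    rw [h6, mul_assoc] at h4
    rw [← mul_left_cancel₀ hez.ne' h4]
    have hkR : (1 : ℝ) ≤ k := by exact_mod_cast hk1
    nlinarith

end

end UNC
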