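import Pool.Agent.UNC.St

/-!
# Module DCC: the set of the coefficients of the quotients
-/

set_option autoImplicit false

namespace UNC

namespace DCC_aux

lemma first_wf (D : Set ℝ) (hD : D.IsWF) :
    {x : ℝ | ∃ (b : ℝ) (e : ℕ), (b = 0 ∨ b ∈ D) ∧ 0 ≤ b ∧ b ≤ 1 ∧ 0 < e ∧
      x = 1 - (1 - b) / e}.IsWF := by
  set S : Set (ℝ × ℕ) := {p | (p.1 = 0 ∨ p.1 ∈ D) ∧ 0 ≤ p.1 ∧ p.1 ≤ 1 ∧ 0 < p.2} with hS
  have h1 : (insert 0 D).IsPWO := (hD.isPWO.insert 0)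
  have h2 : (Set.univ : Set ℕ).IsPWO := by
    refine Set.IsWF.isPWO ?_
    rw [Set.isWF_univ_iff]
    exact (inferInstance : WellFoundedLT ℕ)
  have h3 : S.IsPWO := (h1.prod h2).mono (fun p hp => ⟨by
    rcases hp.1 with h | h
    · rw [h]; exact Set.mem_insert _ _
    · exact Set.mem_insert_of_mem _ h, Set.mem_univ _⟩)
  have h4 : MonotoneOn (fun p : ℝ × ℕ => 1 - (1 - p.1) / (p.2 : ℝ)) S := by
    intro p hp q hq hpq
    have hp2 : (0 : ℝ) < p.2 := by exact_mod_cast hp.2.2.2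
    have hq2 : (0 : ℝ) < q.2 := by exact_mod_cast hq.2.2.2
    have h5 : (p.2 : ℝ) ≤ q.2 := by exact_mod_cast hpq.2
    have h6 : p.1 ≤ q.1 := hpq.1
    have h7 : (1 - q.1) / (q.2 : ℝ) ≤ (1 - p.1) / (p.2 : ℝ) :=
      div_le_div₀ (by linarith [hp.2.2.1]) (by linarith) hp2 h5
    show 1 - (1 - p.1) / (p.2 : ℝ) ≤ 1 - (1 - q.1) / (q.2 : ℝ)
    linarith
  refine (h3.image_of_monotoneOn h4).isWF.mono ?_
  rintro x ⟨b, e, hb, h0, h1', he, rfl⟩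
  exact ⟨(b, e), ⟨hb, h0, h1', he⟩, rfl⟩

end DCC_aux

/-- Module DCC. -/
theorem t_DCC : S_DCC := fun D hD => (DCC_aux.first_wf D hD).union hD

end UNC
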