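import Pool.Agent.UNC.St

/-!
# EFC: the properties of the triple on the quotient

Project UNC (architect helper10). The coefficients of the triple on `Z = X / H` are
`1 - (1 - b) / e` where `b` is the coefficient of a prime divisor of `X` over the given one and `e`
its ramification index; the triple on `Z` is effective, log canonical and invariant.
-/

set_option autoImplicit false

namespace UNC

open MldGeo NDQ

noncomputable section

variable {n m : ℕ}

namespace EFC_aux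

theorem disc_over (hPUL : Stmt_QPUL) {X Z : Germ n} {H : Subgroup (X.K ≃ₐ[ℂ] X.K)}
    {ι : Z.K →ₐ[ℂ] X.K} {T : Triple X} {TZ : Triple Z} (hn : 0 < n) (hQ : IsQuot X Z H ι)
    (hC : Crepant ι T TZ) {w : DivVal n X.K} {z : DivVal n Z.K} {e : ℕ} (hw : X.Through w)
    (ho : Over ι w z e) : T.disc w = e * TZ.disc z := by
  unfold Triple.disc
  rw [hPUL X Z H ι T TZ hn hQ hC w z e hw ho, hC.ideals w z e hw ho]
  ring

theorem through_of_along {Z : Germ n} {z : DivVal n Z.K} {P : Ideal Z.R} (hP : P ≤ Z.m)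
    (h : Z.IsOrdAlong z P) : Z.Through z := by
  refine ⟨h.2.2.1, fun a ha => ?_⟩
  have h1 : a ∉ P := fun h' => ha (hP h')
  have h2 := h.2.2.1 a
  by_contra h3
  exact h1 ((h.2.2.2 a).2 (Or.inr (lt_of_le_of_ne h2 (Ne.symm h3))))

theorem idealOrd_nonneg {X : Germ n} {w : DivVal n X.K} (hw : X.Through w) (I : Ideal X.R) :
    0 ≤ idealOrd w I := by
  unfold idealOrd
  by_cases hne : {k : ℤ | ∃ a ∈ I, a ≠ 0 ∧ w.ord a = k}.Nonempty
  · refine le_csInf hne ?_
    rintro k ⟨a, -, -, rfl⟩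
    exact hw.1 a
  · rw [Set.not_nonempty_iff_eq_empty.1 hne]
    simp

theorem disc_le_logDisc {X : Germ n} (T : Triple X) {w : DivVal n X.K} (hw : X.Through w) :
    T.disc w ≤ T.logDisc w := by
  unfold Triple.disc
  have h : 0 ≤ ∑ j, T.r j * (idealOrd w (T.a j) : ℝ) := by
    refine Finset.sum_nonneg fun j _ => mul_nonneg (T.r_nonneg j) ?_
    exact_mod_cast idealOrd_nonneg hw (T.a j)
  linarith

/-- The data over a prime divisor of the quotient. -/
theorem data (hG : Stmt_QGAL) (hTHT : S_THT) (hPRM : S_PRM) {X Z : Germ n}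
    {H : Subgroup (X.K ≃ₐ[ℂ] X.K)} {ι : Z.K →ₐ[ℂ] X.K} {T : Triple X} {TZ : Triple Z}
    (hn : 0 < n) (hQ : IsQuot X Z H ι) (hC : Crepant ι T TZ) (hLC : T.LC) {P : Ideal Z.R} {b' : ℝ}
    (hP : TZ.Coeff P b') :
    ∃ (Q : Ideal X.R) (w : DivVal n X.K) (z : DivVal n Z.K) (e : ℕ) (b : ℝ), 0 < e ∧
      Over ι w z e ∧ X.IsOrdAlong w Q ∧ Contr ι Q P ∧ T.Coeff Q b ∧ 1 - b = e * (1 - b') ∧
      b ≤ 1 := by
  obtain ⟨hPm, z, hz, hb'⟩ := hP
  obtain ⟨w, e, ho⟩ := (hG X Z H ι hn hQ).2.1 z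
  obtain ⟨Q, hQm, hw, hc⟩ := hPRM hTHT X Z H ι hQ w z e ho P hPm hz
  have h1 : T.logDisc w = e * TZ.logDisc z := hC.div w z e Q hQm hw ho
  have ht : X.Through w := ((hTHT X Z H ι hQ).1 w z e ho).2 (through_of_along hPm hz)
  refine ⟨Q, w, z, e, 1 - T.logDisc w, ho.1, ho, hw, hc, ⟨hQm, w, hw, by ring⟩, ?_, ?_⟩
  · rw [← hb', ← h1]
    ring
  · have h2 := disc_le_logDisc T ht
    have h3 := hLC w ht
    linarith

theorem val_eq {e : ℕ} {b b' : ℝ} (he : 0 < e) (h : 1 - b = e * (1 - b')) :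
    b' = 1 - (1 - b) / e := by
  have he' : (0 : ℝ) < e := by exact_mod_cast he
  rw [h, mul_div_cancel_left₀ _ he'.ne']
  ring

end EFC_aux

open EFC_aux in
theorem t_EFC : S_EFC := by
  intro hG hPUL hTHT hPRM hNIN hRAM n m X Z H ι T TZ φ D hn hQ hC hr ha A B hcomm hB hinv heff hLC
    hD
  refine ⟨⟨?_, ?_⟩, ?_, ?_, ?_, ?_⟩
  · -- the components
    intro P b' hP hne
    obtain ⟨Q, w, z, e, b, he, ho, hw, hc, hQb, hbb, hb1⟩ := data hG hTHT hPRM hn hQ hC hLC hP
    refine hB Q P hc ?_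
    by_cases hb : b = 0
    · by_contra hni
      have he1 : e = 1 := hRAM hG hNIN X Z H ι hn hQ A hcomm w z e Q ho hw hni
      subst he1
      rw [hb] at hbb
      apply hne
      push_cast at hbb
      linarith
    · exact hinv.1 Q b hQb hb
  · -- the ideals
    intro j
    exact hB (T.a (φ j)) (TZ.a j) (ha j) (hinv.2 (φ j))
  · -- effective
    intro P b' hP
    obtain ⟨Q, w, z, e, b, he, ho, hw, hc, hQb, hbb, hb1⟩ := data hG hTHT hPRM hn hQ hC hLC hP
    have hb0 : 0 ≤ b := heff Q b hQb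
    have he' : (1 : ℝ) ≤ e := by exact_mod_cast he
    by_contra hlt
    push Not at hlt
    nlinarith
  · -- log canonical
    intro z hz
    obtain ⟨w, e, ho⟩ := (hG X Z H ι hn hQ).2.1 z
    have ht : X.Through w := ((hTHT X Z H ι hQ).1 w z e ho).2 hz
    have h1 : T.disc w = e * TZ.disc z := disc_over hPUL hn hQ hC ht ho
    have h2 : 0 ≤ T.disc w := hLC w ht
    have he' : (0 : ℝ) < e := by exact_mod_cast ho.1
    rw [h1] at h2
    exact nonneg_of_mul_nonneg_right h2 he'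
  · -- the coefficients
    intro P b' hP _
    obtain ⟨Q, w, z, e, b, he, ho, hw, hc, hQb, hbb, hb1⟩ := data hG hTHT hPRM hn hQ hC hLC hP
    refine Or.inl ⟨b, e, ?_, heff Q b hQb, hb1, he, val_eq he hbb⟩
    by_cases hb : b = 0
    · exact Or.inl hb
    · exact Or.inr (hD.1 Q b hQb hb)
  · -- the exponents
    intro j hj
    rw [hr j] at hj ⊢
    exact Or.inr (hD.2 (φ j) hj)

end

end UNC
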