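import Pool.Agent.UNC.St
import Pool.Agent.MldG.ATH

/-!
# EXQ: the quotient germ exists
-/

set_option autoImplicit false

namespace UNC

open MldGeo NDQ

namespace EXQ_aux

noncomputable section

section Norm

variable {K : Type} [Field K] [Algebra ℂ K] (R : Subalgebra ℂ K) (G : Subgroup (K ≃ₐ[ℂ] K))
  [Fintype G]

/-- the norm -/
def nm (a : K) : K := ∏ g : G, (g : K ≃ₐ[ℂ] K) a

theorem nm_fixed (a : K) (h : K ≃ₐ[ℂ] K) (hh : h ∈ G) : h (nm G a) = nm G a := by
  unfold nm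
  rw [map_prod]
  exact Fintype.prod_equiv (Equiv.mulLeft (⟨h, hh⟩ : G)) _ _ (fun g => rfl)

theorem nm_ne (a : K) (ha : a ≠ 0) : nm G a ≠ 0 := by
  unfold nm
  rw [Finset.prod_ne_zero_iff]
  intro g _ h0
  exact ha ((map_eq_zero_iff _ (g : K ≃ₐ[ℂ] K).injective).mp h0)

theorem nm_mem (hG : ∀ g ∈ G, ∀ a ∈ R, g a ∈ R) (a : K) (ha : a ∈ R) : nm G a ∈ R :=
  Subalgebra.prod_mem _ fun g _ => hG g g.2 a ha

theorem nm_mul (hG : ∀ g ∈ G, ∀ a ∈ R, g a ∈ R) (a : K) (ha : a ∈ R) :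
    ∃ c ∈ R, nm G a = a * c := by
  classical
  refine ⟨∏ g ∈ (Finset.univ : Finset G).erase 1, (g : K ≃ₐ[ℂ] K) a,
    Subalgebra.prod_mem _ fun g _ => hG g g.2 a ha, ?_⟩
  unfold nm
  rw [← Finset.mul_prod_erase Finset.univ (fun g : G => (g : K ≃ₐ[ℂ] K) a) (Finset.mem_univ 1)]
  rfl

end Norm

section Quot

variable {n : ℕ} (X : Germ n) (G : Subgroup (X.K ≃ₐ[ℂ] X.K))

/-- the invariant field -/
abbrev F : IntermediateField ℂ X.K := IntermediateField.fixedField G

/-- the invariant ring -/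
abbrev RZ : Subalgebra ℂ (F X G) := X.R.comap (F X G).val

/-- the inclusion of the rings -/
def φ : RZ X G →ₐ[ℂ] X.R :=
  ((F X G).val.comp (RZ X G).val).codRestrict X.R (fun b => b.2)

theorem φ_coe (b : RZ X G) : ((φ X G b : X.R) : X.K) = ((b : F X G) : X.K) := rfl

theorem frac [Finite G] (hG : ∀ g ∈ G, ∀ a ∈ X.R, g a ∈ X.R) (a : F X G) :
    ∃ r ∈ RZ X G, ∃ s ∈ RZ X G, s ≠ 0 ∧ a * s = r := by
  have := Fintype.ofFinite G
  obtain ⟨r, hr, s, hs, hs0, h⟩ := X.frac (a : X.K)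
  obtain ⟨c, hc, hn⟩ := nm_mul X.R G hG s hs
  have hF : nm G s ∈ F X G := by
    rw [IntermediateField.mem_fixedField_iff]
    intro f hf
    exact nm_fixed G s f hf
  refine ⟨a * ⟨nm G s, hF⟩, ?_, ⟨nm G s, hF⟩, ?_, ?_, rfl⟩
  · change (a : X.K) * nm G s ∈ X.R
    rw [hn, ← mul_assoc, h]
    exact X.R.mul_mem hr hc
  · change nm G s ∈ X.R
    exact nm_mem X.R G hG s hs
  · intro h0
    exact nm_ne G s hs0 (congrArg (fun x : F X G => (x : X.K)) h0)

theorem normal (a : F X G) (ha : IsIntegral (RZ X G) a) : a ∈ RZ X G := by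
  change (a : X.K) ∈ X.R
  apply X.normal
  obtain ⟨p, hp, h0⟩ := ha
  refine ⟨p.map (φ X G : RZ X G →+* X.R), hp.map _, ?_⟩
  rw [Polynomial.eval₂_map]
  have h1 : ((algebraMap X.R X.K).comp (φ X G : RZ X G →+* X.R)) =
      ((F X G).val : F X G →+* X.K).comp (algebraMap (RZ X G) (F X G)) := by
    ext b
    rfl
  rw [h1]
  have h2 := Polynomial.hom_eval₂ p (algebraMap (RZ X G) (F X G)) ((F X G).val : F X G →+* X.K) a
  rw [h0, map_zero] at h2
  exact h2.symm

theorem alg [Finite G] : Algebra.IsAlgebraic (F X G) X.K := by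
  have h : Algebra.IsInvariant (F X G) X.K G := by
    refine ⟨fun b hb => ⟨⟨b, ?_⟩, rfl⟩⟩
    rw [IntermediateField.mem_fixedField_iff]
    intro f hf
    exact hb ⟨f, hf⟩
  have h2 : Algebra.IsIntegral (F X G) X.K := Algebra.IsInvariant.isIntegral (F X G) X.K G
  infer_instance

theorem trdeg [Finite G] : Algebra.trdeg ℂ (F X G) = n := by
  have h := trdeg_add_eq ℂ (F X G) (A := X.K)
  have h1 : Algebra.trdeg (F X G) X.K = 0 := by
    have := alg X G
    exact _root_.trdeg_eq_zero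
  rw [h1, add_zero, X.trdeg] at h
  exact h

theorem max : (X.m.comap (φ X G : RZ X G →+* X.R)).IsMaximal := by
  rw [← Ideal.mk_ker (I := X.m), RingHom.comap_ker]
  let _ : Field (X.R ⧸ X.m) := Ideal.Quotient.field X.m
  apply RingHom.ker_isMaximal_of_surjective
  intro y
  obtain ⟨a, rfl⟩ := Ideal.Quotient.mk_surjective y
  obtain ⟨c, hc⟩ := MldG.ATH.exists_const X a
  refine ⟨algebraMap ℂ (RZ X G) c, ?_⟩
  change Ideal.Quotient.mk X.m (φ X G (algebraMap ℂ (RZ X G) c)) = _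
  rw [AlgHom.commutes]
  symm
  rw [Ideal.Quotient.eq]
  exact hc

end Quot

end

end EXQ_aux

open EXQ_aux in
/-- EXQ: the quotient exists. -/
theorem t_EXQ : S_EXQ := by
  intro hFGI n X G hfin hR hm
  refine ⟨{
    K := F X G
    fieldK := inferInstance
    algK := inferInstance
    R := RZ X G
    fg := hFGI X.R G hfin X.fg hR
    frac := frac X G hR
    normal := normal X G
    trdeg := trdeg X G
    m := X.m.comap (φ X G : RZ X G →+* X.R)
    max := max X G }, (F X G).val, ?_⟩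
  refine ⟨hfin, hR, hm, ?_, fun b => Iff.rfl, ?_⟩
  · intro a
    constructor
    · rintro ⟨b, rfl⟩ g hg
      exact (IntermediateField.mem_fixedField_iff G (b : X.K)).mp b.2 g hg
    · intro h
      exact ⟨⟨a, (IntermediateField.mem_fixedField_iff G a).mpr h⟩, rfl⟩
  · intro b a hab
    have h1 : a = φ X G b := Subtype.ext hab
    rw [h1]
    exact Iff.rfl

end UNC
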