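import Pool.Agent.NDQ.St
import Pool.Agent.MldG.StmtsZ

/-!
# Quotients by elements which commute with a torus of complexity one: statements

Project UNC (architect helper10): one theorem which contains the ascending chain condition for
quotients of nondegenerate complete intersections and of toric triples (`NDQ`) and the one for torus
actions of complexity at most one at arbitrary closed points (`MldG`), and which allows in the
quotient `X / G` elements `g` which commute with a torus of dimension at least `n - 1`.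

The idea: `Z = X / ⟨g⟩` is again a germ with an action of a torus of the same dimension, the
contribution of `g` to the minimal log discrepancy of `Y = X / G` is the minimal log discrepancy of the
triple on `Z`. Every statement has its proof in the doc-string.
-/

set_option autoImplicit false

namespace UNC

open MldGeo NDQ

noncomputable section

variable {n m : ℕ}

/-! ## Definitions -/

/-- The automorphism `g` commutes with the torus: it maps functions of weight `u` to functions of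
weight `u`. -/
def Comm {X : Germ n} (A : MldG.TorusAction X m) (g : X.K ≃ₐ[ℂ] X.K) : Prop :=
  ∀ (u : Fin m → ℤ) (a b : X.R), a ∈ A.gr u → (b : X.K) = g a → b ∈ A.gr u

/-- The ideal `I'` of `Z` is the contraction of the ideal `I` of `X`. -/
def Contr {X Z : Germ n} (ι : Z.K →ₐ[ℂ] X.K) (I : Ideal X.R) (I' : Ideal Z.R) : Prop :=
  ∀ b : Z.R, b ∈ I' ↔ ∃ a ∈ I, (a : X.K) = ι b

/-- The ideals of the triple are generated by functions which are invariant under `H`. -/
def InvGen {X : Germ n} (T : Triple X) (H : Subgroup (X.K ≃ₐ[ℂ] X.K)) : Prop :=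
  ∀ j, ∃ s : Set X.R, (∀ a ∈ s, ∀ h ∈ H, h (a : X.K) = a) ∧ T.a j = Ideal.span s

/-- The coefficients of the quotients: `1 - (1 - b) / e`, `b ∈ D ∪ {0}`, and the exponents. -/
def cset (D : Set ℝ) : Set ℝ :=
  {x | ∃ (b : ℝ) (e : ℕ), (b = 0 ∨ b ∈ D) ∧ 0 ≤ b ∧ b ≤ 1 ∧ 0 < e ∧ x = 1 - (1 - b) / e} ∪ D

/-- The minimal log discrepancies of the triples with an action of a torus of complexity at most
one. -/
def torSet (n : ℕ) (D : Set ℝ) : Set ℝ :=
  {a | ∃ (X : Germ n) (T : Triple X) (m : ℕ) (A : MldG.TorusAction X m), n ≤ m + 1 ∧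
    A.InvTriple T ∧ T.Effective ∧ T.LC ∧ T.CoeffIn D ∧ T.mld = a}

/-! ## The quotient germ -/

/-- FGI: Noether's finiteness theorem. Proof. Let `K' = K^G`, `R' = R ∩ K'`. Every `a ∈ R` is a zero
of `∏_{g ∈ G} (t - g a)`, whose coefficients are in `R'`, so `R` is integral over `R'`; `R` is a
finitely generated algebra, so it is a finite `R'`-module. By the lemma of Artin and Tate (Mathlib:
`fg_of_fg_of_fg`, for `ℂ ⊆ R' ⊆ R`) `R'` is finitely generated. -/
def S_FGI : Prop := ∀ {K : Type} [Field K] [Algebra ℂ K] (R : Subalgebra ℂ K)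
  (G : Subgroup (K ≃ₐ[ℂ] K)), Finite G → R.FG → (∀ g ∈ G, ∀ a ∈ R, g a ∈ R) →
  (R.comap (IntermediateField.fixedField G).val).FG

/-- EXQ: the quotient exists. Proof. `Z.K = fixedField G`, `ι` the inclusion, `Z.R = R ∩ Z.K` as in
`FGI`, `Z.m` the contraction of `X.m` to `Z.R`. (1) `frac`: for `a ∈ Z.K` write `a s = r`,
`r, s ∈ R`; then `a ∏_{g ∈ G} g s = r ∏_{g ≠ 1} g s` is in `R` and invariant, and so is
`∏_{g ∈ G} g s ≠ 0`. (2) `normal`: an element of `Z.K` integral over `Z.R` is integral over `R`, so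
it is in `R`. (3) `trdeg`: `X.K` is algebraic over `Z.K` (it is finite: Artin's theorem, Mathlib
`FixedPoints`/`IntermediateField.fixedField`), so the transcendence degrees over `ℂ` are equal.
(4) `Z.m` is maximal since `R` is integral over `Z.R` (`Ideal.isMaximal_comap_of_isIntegral_of_isMaximal`),
or: its residue field is contained in the one of `X.m`, which is `ℂ`. The conditions of `IsQuot` are
clear. -/
def S_EXQ : Prop := S_FGI → ∀ {n : ℕ} (X : Germ n) (G : Subgroup (X.K ≃ₐ[ℂ] X.K)), Finite G →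
  (∀ g ∈ G, ∀ a ∈ X.R, g a ∈ X.R) →
  (∀ g ∈ G, ∀ a b : X.R, (b : X.K) = g a → a ∈ X.m → b ∈ X.m) →
  ∃ (Z : Germ n) (ι : Z.K →ₐ[ℂ] X.K), IsQuot X Z G ι

/-- LAT: a subgroup of finite index of `ℤ^m` is isomorphic to `ℤ^m`. Proof. `M` is a free `ℤ`-module of
finite rank; its rank is `m` because `k ℤ^m ⊆ M` (`k` is the product of the `k_i` for the unit
vectors). Take a basis (`Submodule.basisOfPid`, `Submodule.smithNormalForm`, or
`Module.Free.chooseBasis` and `finrank`). -/
def S_LAT : Prop := ∀ {m : ℕ} (M : AddSubgroup (Fin m → ℤ)),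
  (∀ u : Fin m → ℤ, ∃ k : ℕ, 0 < k ∧ k • u ∈ M) →
  ∃ φ : (Fin m → ℤ) →+ (Fin m → ℤ), Function.Injective φ ∧ ∀ u, u ∈ M ↔ ∃ u', φ u' = u

/-- TAZ: the torus acts on the quotient. Proof. Let `M` be the subgroup generated by the weights of
the nonzero invariant semi-invariant functions, `{u | ∃ b : Z.R, b ≠ 0, ι b ∈ A.gr u}`. If `a ≠ 0` has
weight `u` then `∏_{g ∈ G} g a` is invariant, not zero and of weight `|G| u`; since the weights generate
`ℤ^m`, `|G| ℤ^m ⊆ M`. Let `φ` be as in `LAT` and `B.gr u' = {b | ι b ∈ A.gr (φ u')}`. For `b ∈ Z.R`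
decompose `ι b = ∑ a_u`; applying `g ∈ G` (`Comm`) and comparing components shows that the `a_u` are
invariant, so `a_u = ι b_u`, `b_u ∈ Z.R` (`inv`, `mem_R`), and `u ∈ M` if `b_u ≠ 0`: this is the
decomposition of `b`. The weights of `B` are the preimages of the generators of `M`, so they generate
`ℤ^m`. Ideals: if `A.Inv I` then `I` contains the homogeneous components of its elements (a
homogeneous generating set, `Ideal.IsHomogeneous`), so the same is true for the contraction `I'`, which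
is therefore generated by its homogeneous elements. -/
def S_TAZ : Prop := S_LAT → ∀ {n m : ℕ} (X Z : Germ n) (G : Subgroup (X.K ≃ₐ[ℂ] X.K))
  (ι : Z.K →ₐ[ℂ] X.K), IsQuot X Z G ι → ∀ A : MldG.TorusAction X m, (∀ g ∈ G, Comm A g) →
  ∃ B : MldG.TorusAction Z m, ∀ (I : Ideal X.R) (I' : Ideal Z.R), Contr ι I I' → A.Inv I → B.Inv I'

/-! ## Valuations -/

/-- THT: centres. Proof. `Over ι w z e` gives `w (ι b) = e z b`, `e > 0`. If `X.Through w` then clearly
`Z.Through z` (`mem_R`, `mem_m`). Conversely let `Z.Through z`. For `a ∈ X.R` the coefficients of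
`∏_{g ∈ G} (t - g a)` are invariant and regular, so they have nonnegative order; if `w a < 0` then the
leading term `a^{|G|}` has smaller order than the others, a contradiction; so `0 ≤ w a` (this part is
also in `MldGeo/QAT.lean`). If `a ∉ X.m` then `N = ∏_{g ∈ G} g a` is invariant, regular and not in
`X.m` (a maximal ideal is prime; `g a ∉ X.m` by `map_m` for `g⁻¹`), so `0 = w N = ∑ w (g a)`, and all
terms are nonnegative. Last part: if `X.At w` and `a ∉ X.m` then, since `R / m = ℂ` (`ℂ` is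
algebraically closed, `R` is finitely generated; or `X.m` is maximal: `a a' - 1 ∈ X.m`), `w (a a') = 0`
and both orders are nonnegative. -/
def S_THT : Prop := ∀ {n : ℕ} (X Z : Germ n) (G : Subgroup (X.K ≃ₐ[ℂ] X.K)) (ι : Z.K →ₐ[ℂ] X.K),
  IsQuot X Z G ι → (∀ (w : DivVal n X.K) (z : DivVal n Z.K) (e : ℕ), Over ι w z e →
    (X.Through w ↔ Z.Through z)) ∧ ∀ w : DivVal n X.K, X.At w → X.Through w

/-- PRM: prime divisors. Proof. `w` has nonnegative order on `X.R` and `X.Through w` by `THT` (`z` is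
through the point: `P ≤ Z.m`). `Q = {a | a = 0 ∨ 0 < w a}` is a prime ideal, `Q ≤ X.m`, and its
contraction is `P`. `Q ≠ 0`. If `Q' ⊊ Q` is a prime ideal then its contraction is properly contained
in `P` (incomparability for the integral extension `Z.R ⊆ X.R`,
`Ideal.comap_lt_comap_of_integral_mem_sdiff`), so it is zero (`P` has height one), hence `Q' = 0`
(every nonzero ideal of `X.R` has a nonzero contraction: take the norm of an element). So `Q` has
height one. -/
def S_PRM : Prop := S_THT → ∀ {n : ℕ} (X Z : Germ n) (G : Subgroup (X.K ≃ₐ[ℂ] X.K))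
  (ι : Z.K →ₐ[ℂ] X.K), IsQuot X Z G ι → ∀ (w : DivVal n X.K) (z : DivVal n Z.K) (e : ℕ),
  Over ι w z e → ∀ P : Ideal Z.R, P ≤ Z.m → Z.IsOrdAlong z P →
  ∃ Q : Ideal X.R, Q ≤ X.m ∧ X.IsOrdAlong w Q ∧ Contr ι Q P

/-- NIN: homogeneous functions have order zero along a prime divisor which is not invariant. Proof.
This is the first assertion of `MldG.Stmt_NHP`; the data needed there exist by `MldG.Stmt_SPL`,
`MldG.Stmt_TRD` (a transcendence basis of `A.K0`). -/
def S_NIN : Prop := ∀ {n m : ℕ} (X : Germ n) (A : MldG.TorusAction X m) (w : DivVal n X.K)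
  (Q : Ideal X.R), X.IsOrdAlong w Q → ¬ A.Inv Q → ∀ (u : Fin m → ℤ) (a : X.R), a ∈ A.gr u → a ≠ 0 →
  w.ord (a : X.K) = 0

/-- RAM: a prime divisor which is not invariant is not ramified. Proof. `QGAL` gives `h ∈ G` with
`w (h a - exp(2 π i w(a) / e) a) ≥ w(a) + 1` for all `a ≠ 0`. For a semi-invariant `a ∈ X.R`, `a ≠ 0`,
one has `w a = 0` (`NIN`), so `h a - a` has positive order (or is zero); it is semi-invariant of the
same weight (`Comm`) and regular, so it is zero by `NIN`. So `h` is the identity on `X.R` (it is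
spanned by the semi-invariant functions) and on `X.K`. For `a` with `w a = 1` this gives
`exp(2 π i / e) = 1` (otherwise `(1 - exp(2 π i / e)) a` has order `1`), so `e = 1`. -/
def S_RAM : Prop := Stmt_QGAL → S_NIN → ∀ {n m : ℕ} (X Z : Germ n)
  (G : Subgroup (X.K ≃ₐ[ℂ] X.K)) (ι : Z.K →ₐ[ℂ] X.K), 0 < n → IsQuot X Z G ι →
  ∀ A : MldG.TorusAction X m, (∀ g ∈ G, Comm A g) → ∀ (w : DivVal n X.K) (z : DivVal n Z.K) (e : ℕ)
  (Q : Ideal X.R), Over ι w z e → X.IsOrdAlong w Q → ¬ A.Inv Q → e = 1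

/-! ## The triple on the quotient -/

/-- TRI: the ideals. Proof. `I' = ` contraction of `I = (s)`, `s` invariant. `s ⊆ ι(I')`, so
`e z(b) = w(ι b) ≥ w(I)` for `b ∈ I'`, and the least order of an element of `I` is attained at an
element of `s` (`w ≥ 0` on `X.R`; the values are integers bounded below, so the infima are minima).
`I' ≠ 0` because `s` contains a nonzero element. -/
def S_TRI : Prop := ∀ {n : ℕ} (X Z : Germ n) (G : Subgroup (X.K ≃ₐ[ℂ] X.K)) (ι : Z.K →ₐ[ℂ] X.K),
  IsQuot X Z G ι → ∀ (I : Ideal X.R) (s : Set X.R), (∀ a ∈ s, ∀ h ∈ G, h (a : X.K) = a) →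
  I = Ideal.span s → I ≠ ⊥ → ∃ I' : Ideal Z.R, Contr ι I I' ∧ I' ≠ ⊥ ∧
    ∀ (w : DivVal n X.K) (z : DivVal n Z.K) (e : ℕ), X.Through w → Over ι w z e →
      idealOrd w I = e * idealOrd z I'

/-- TRZ: the triple. Proof. `H ≤ G`, so the image of `π` is contained in the image of `ι`:
`κ : Y.K → Z.K` with `ι κ = π`. Let `a` be a transcendence basis of `Y.K` (nonzero elements; `n`
of them): `T'.ω = g • dlogs a`, `g ≠ 0` (`Ω` has dimension `n` and the `d a_i` are a basis, `TBAS`,
`FRM`; see the use in `MldGeo/PULQ.lean` or `MldGeo/QGAL.lean`). The `κ a_i` are algebraically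
independent, so `TZ.ω = κ g • dlogs (κ a) ≠ 0` (`TBAS`); `TZ.f i = κ (T'.f i)`, `TZ.c = T'.c`,
`TZ.J = T.J`, ideals from `TRI`, `TZ.r = T.r`. Let `w` be over `z` (index `e`) the order along a prime
divisor through the point, and `w` over `v` (index `e'`, `QGAL` for `X → Y`). By `QGAL` for `X → Y`
and for `X → Z`: `e' v.logOrd (T'.ω) = w.logOrd (π g • dlogs (π a)) = e z.logOrd (TZ.ω)`, and
`e' v(f) = w(π f) = e z(κ f)`, so `e TZ.logDisc z = e' T'.logDisc v = T.logDisc w` (`Crepant.div`;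
`logDisc` in terms of `logOrd` by definition or `TXT`). -/
def S_TRZ : Prop := Stmt_QGAL → Stmt_TBAS → Stmt_FRM → Stmt_TXT → S_TRI →
  ∀ {n : ℕ} (X Y Z : Germ n) (G H : Subgroup (X.K ≃ₐ[ℂ] X.K)) (π : Y.K →ₐ[ℂ] X.K)
  (ι : Z.K →ₐ[ℂ] X.K) (T : Triple X) (T' : Triple Y), 0 < n → IsQuot X Y G π → Crepant π T T' →
  IsQuot X Z H ι → H ≤ G → InvGen T H →
  ∃ (TZ : Triple Z) (φ : TZ.J ≃ T.J), (∀ j, TZ.r j = T.r (φ j)) ∧
    (∀ j, Contr ι (T.a (φ j)) (TZ.a j)) ∧ Crepant ι T TZ

/-- EFC: the properties of the triple on `Z`. Proof. Let `P ≤ Z.m` be a prime divisor of `Z`, the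
order along it is `z`, `w` over `z` with index `e` (`QGAL`), `Q` from `PRM`. `T.logDisc w = e
TZ.logDisc z` (`Crepant.div`), i.e. `1 - b = e (1 - b')`, `T.Coeff Q b`, `TZ.Coeff P b'`
(the valuation in `TZ.Coeff P b'` is unique or is taken as `z`). (1) `b ≥ 0` gives
`b' = 1 - (1 - b) / e ≥ 0`. (2) `b ≤ 1`: `1 - b = T.logDisc w ≥ T.disc w ≥ 0` (`T.LC`, the orders of
ideals along `w` are nonnegative, `X.Through w`). So `b' ∈ cset D`; the exponents of `TZ` are those of
`T`. (3) `LC`: for `Z.Through z` take `w` over `z`: `X.Through w` (`THT`),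
`0 ≤ T.disc w = e TZ.disc z` (`QPUL` and `Crepant.ideals`, see `MldGeo.QFin.disc_over`).
(4) `InvTriple`: for the ideals by the property of `B`. If `b' ≠ 0` and `b ≠ 0` then `A.Inv Q`, so
`B.Inv P`; if `b' ≠ 0` and `b = 0` then `1 = e (1 - b')` and `e ≠ 1`, so `A.Inv Q` by `RAM` and
`B.Inv P`. -/
def S_EFC : Prop := Stmt_QGAL → Stmt_QPUL → S_THT → S_PRM → S_NIN → S_RAM →
  ∀ {n m : ℕ} (X Z : Germ n) (H : Subgroup (X.K ≃ₐ[ℂ] X.K)) (ι : Z.K →ₐ[ℂ] X.K) (T : Triple X)
  (TZ : Triple Z) (φ : TZ.J ≃ T.J) (D : Set ℝ), 0 < n → IsQuot X Z H ι → Crepant ι T TZ →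
  (∀ j, TZ.r j = T.r (φ j)) → (∀ j, Contr ι (T.a (φ j)) (TZ.a j)) →
  ∀ (A : MldG.TorusAction X m) (B : MldG.TorusAction Z m), (∀ g ∈ H, Comm A g) →
  (∀ (I : Ideal X.R) (I' : Ideal Z.R), Contr ι I I' → A.Inv I → B.Inv I') →
  A.InvTriple T → T.Effective → T.LC → T.CoeffIn D →
  B.InvTriple TZ ∧ TZ.Effective ∧ TZ.LC ∧ TZ.CoeffIn (cset D)

/-- DCC: the set of the coefficients. Proof. `cset D` is the union of two sets; it is enough that both
are well founded (`Set.IsWF.union`). For the first one let `x_k = 1 - (1 - b_k) / e_k` be strictly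
decreasing. Then `(1 - b_k) / e_k` is strictly increasing and `≥ 0`, so it is `≥ c > 0` for `k ≥ 1`, and
`e_k ≤ 1 / c`: infinitely many `e_k` are equal, and the corresponding `b_k` are strictly decreasing in
the well founded set `insert 0 D`. (For example with `Set.isWF_iff_no_descending_seq`; or: for every
`c > 0` the part of the set with `x < 1 - c` is a finite union of monotone images of
`insert 0 D`.) -/
def S_DCC : Prop := ∀ D : Set ℝ, D.IsWF → (cset D).IsWF

/-! ## The contribution of an element -/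

/-- CON: the contribution of `g` is the minimal log discrepancy of `X / ⟨g⟩`. Proof. For `w` over `z`
(index `e_z`) and over `v` (index `e`), `X.Through w`: `T.disc w = e_z TZ.disc z = e T'.disc v`
(`MldGeo.QFin.disc_over`); `TZ.disc z ≥ 0` for `Z.Through z` (`THT`, `T.LC`).
Lower bound: let `w`, `v`, `e` be as in `Contrib`, `z` under `w` with index `e_z` (`QGAL` for
`X → Z`). For `b ∈ Z.K`, `b ≠ 0`, `g (ι b) = ι b`, so the condition on `g` gives that
`(1 - exp(2 π i w(ι b) / e)) ι b` has order `> w(ι b)` or is zero, so `exp(2 π i w(ι b) / e) = 1` and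
`e ∣ w(ι b) = e_z z(b)`; for `z(b) = 1`: `e ∣ e_z`. The elements of `Y.K` are in `Z.K`
(`v(c) = 1`: `π c = ι b`, `e = w(π c) = e_z z(b)`), so `e_z ∣ e`. Hence `e_z = e` and
`T'.disc v = TZ.disc z ≥ TZ.mld` (`z` is at the point by `QAT`; `TZ.mld` is the infimum of a set
which is bounded below by `0`). Upper bound: there is some `v₀` at `y`, so `w₀` at `x`, `z₀` at the
point of `Z` (`QGAL`, `QAT`): the set in `TZ.mld` is not empty, and there is `z` at the point with
`TZ.disc z < TZ.mld + ε`. Let `w` be over `z` (index `e_z`), `v` under `w` (index `e`); as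
above `e_z ∣ e`, so `T'.disc v = (e_z / e) TZ.disc z ≤ TZ.disc z`. `v` is at `y` by `QAT`. -/
def S_CON : Prop := Stmt_QGAL → Stmt_QAT → Stmt_QPUL → S_THT →
  ∀ {n : ℕ} (X Y Z : Germ n) (G : Subgroup (X.K ≃ₐ[ℂ] X.K)) (π : Y.K →ₐ[ℂ] X.K)
  (ι : Z.K →ₐ[ℂ] X.K) (T : Triple X) (T' : Triple Y) (TZ : Triple Z), 0 < n → IsQuot X Y G π →
  Crepant π T T' → T.LC → ∀ g ∈ G, IsQuot X Z (Subgroup.zpowers g) ι → Crepant ι T TZ →
  (∃ v, Y.At v) → Contrib π T' g TZ.mld

/-- The minimal log discrepancies of the theorem. -/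
def unMld (n N : ℕ) (D : Set ℝ) : Set ℝ :=
  {a | ∃ (X Y : Germ n) (G : Subgroup (X.K ≃ₐ[ℂ] X.K)) (π : Y.K →ₐ[ℂ] X.K) (T : Triple X)
    (T' : Triple Y), IsQuot X Y G π ∧ Crepant π T T' ∧ T.LC ∧
    (∀ g ∈ G,
      (∃ N' ≤ N, ∃ (r : ℕ) (f : Fin r → MvPolynomial (Fin N') ℂ) (x : Fin N' → X.K)
        (c : Fin N' → ℂ) (b : Fin N' → ℝ) (M : T.J → Set (Fin N' →₀ ℕ)), CI X f x ∧
        Mono T x b M ∧ (∀ j, b j ≠ 0 → b j ∈ D) ∧ (∀ j, T.r j ≠ 0 → T.r j ∈ D) ∧
        (∀ j, g (x j) = algebraMap ℂ X.K (c j) * x j) ∧ Semi f c) ∨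
      (T.Effective ∧ T.CoeffIn D ∧ ((∃ A : TorusAction X n, A.Normal g ∧ A.InvTriple T) ∨
        ∃ (m : ℕ) (A : MldG.TorusAction X m), n ≤ m + 1 ∧ A.InvTriple T ∧ Comm A g ∧
          InvGen T (Subgroup.zpowers g)))) ∧
    T'.mld = a}

/-- The theorem. -/
def S_ASM : Prop := ∀ (n N : ℕ) (D : Set ℝ), D.IsWF → ∀ x : ℕ → ℝ, (∀ k, x k ∈ unMld n N D) →
  ¬ StrictMono x

end

end UNC
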