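import Mathlib
import Pool.Agent.UNC.St

/-!
# UNC_FGI: Noether's finiteness theorem for a finite group of automorphisms
-/

set_option autoImplicit false

namespace UNC

namespace FGI_aux

/-- Noether's finiteness theorem, abstract form. -/
theorem noether {A B C : Type} [CommRing A] [CommRing B] [CommRing C] [Algebra A B] [Algebra B C]
    [Algebra A C] [IsScalarTower A B C] [IsNoetherianRing A] (hC : Algebra.FiniteType A C)
    (hint : Algebra.IsIntegral B C) (hinj : Function.Injective (algebraMap B C)) :
    Algebra.FiniteType A B := by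
  have h1 : Algebra.FiniteType B C := Algebra.FiniteType.of_restrictScalars_finiteType A B C
  have h2 : Module.Finite B C := Algebra.IsIntegral.finite
  exact ⟨fg_of_fg_of_fg A B C hC.out h2.fg_top hinj⟩

end FGI_aux

open FGI_aux in
theorem t_FGI : S_FGI := by
  intro K _ _ R G hG hR hGR
  set K' := IntermediateField.fixedField G with hK'
  set R' : Subalgebra ℂ K' := R.comap K'.val with hR'
  let act : MulSemiringAction G R :=
    { smul := fun g a => ⟨g.1 a.1, hGR g.1 g.2 a.1 a.2⟩
      one_smul := fun a => Subtype.ext rfl
      mul_smul := fun g h a => Subtype.ext rfl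
      smul_zero := fun g => Subtype.ext (map_zero g.1)
      smul_add := fun g a b => Subtype.ext (map_add g.1 a.1 b.1)
      smul_one := fun g => Subtype.ext (map_one g.1)
      smul_mul := fun g a b => Subtype.ext (map_mul g.1 a.1 b.1) }
  let φ : R' →+* R :=
    { toFun := fun x => ⟨K'.val x.1, x.2⟩
      map_one' := Subtype.ext (map_one _)
      map_mul' := fun x y => Subtype.ext (map_mul _ _ _)
      map_zero' := Subtype.ext (map_zero _)
      map_add' := fun x y => Subtype.ext (map_add _ _ _) }
  let alg : Algebra R' R := φ.toAlgebra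
  have tow : IsScalarTower ℂ R' R := by
    refine IsScalarTower.of_algebraMap_eq fun c => Subtype.ext ?_
    rfl
  have inv : Algebra.IsInvariant R' R G := by
    refine ⟨fun b hb => ?_⟩
    have h1 : (b : K) ∈ K' := by
      rw [hK', IntermediateField.mem_fixedField_iff]
      intro g hg
      exact congrArg Subtype.val (hb ⟨g, hg⟩)
    exact ⟨⟨⟨b.1, h1⟩, b.2⟩, Subtype.ext rfl⟩
  have hint : Algebra.IsIntegral R' R := Algebra.IsInvariant.isIntegral R' R G
  have hinj : Function.Injective (algebraMap R' R) := by
    intro x y hxy
    have h0 : φ x = φ y := hxy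
    have h1 : (φ x).1 = (φ y).1 := congrArg Subtype.val h0
    exact Subtype.ext (Subtype.ext h1)
  have hRt : Algebra.FiniteType ℂ R := R.fg_iff_finiteType.1 hR
  exact (Subalgebra.fg_iff_finiteType R').2 (noether hRt hint hinj)

end UNC
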