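import Pool.Agent.UNC.St

/-!
# Subgroups of finite index of `ℤ^m`
-/

set_option autoImplicit false

namespace UNC

theorem t_LAT : S_LAT := by
  classical
  intro m M hM
  set N : Submodule ℤ (Fin m → ℤ) := AddSubgroup.toIntSubmodule M with hN
  have hmem : ∀ u, u ∈ N ↔ u ∈ M := fun u => Iff.rfl
  obtain ⟨n, b⟩ := Submodule.basisOfPid (Pi.basisFun ℤ (Fin m)) N
  -- a common multiple
  choose k hk0 hkM using hM
  set K : ℕ := ∏ i : Fin m, k (Pi.single i 1) with hK
  have hK0 : K ≠ 0 := Finset.prod_ne_zero_iff.2 fun i _ => (hk0 _).ne'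
  have hKM : ∀ u : Fin m → ℤ, K • u ∈ M := by
    intro u
    have h1 : u = ∑ i, u i • (Pi.single i (1 : ℤ) : Fin m → ℤ) := pi_eq_sum_univ' u
    rw [h1, Finset.smul_sum]
    refine M.sum_mem fun i _ => ?_
    have h2 : K • (u i • (Pi.single i (1 : ℤ) : Fin m → ℤ)) = u i • (K • (Pi.single i (1 : ℤ) : Fin m → ℤ)) :=
      smul_comm _ _ _
    rw [h2]
    refine M.zsmul_mem ?_ _
    obtain ⟨c, hc⟩ := Finset.dvd_prod_of_mem (fun i : Fin m => k (Pi.single i 1)) (Finset.mem_univ i)
    have h3 : K = c * k (Pi.single i 1) := by rw [hK, hc, mul_comm]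
    rw [h3, mul_smul]
    exact M.nsmul_mem (hkM _) c
  -- the rank
  have hle : m ≤ Module.finrank ℤ N := by
    let f : (Fin m → ℤ) →ₗ[ℤ] N :=
      { toFun := fun u => ⟨(K : ℤ) • u, by
          rw [hmem, natCast_zsmul]
          exact hKM u⟩
        map_add' := fun u v => by
          apply Subtype.ext
          simp
        map_smul' := fun c u => by
          apply Subtype.ext
          simp only [RingHom.id_apply, SetLike.mk_smul_mk]
          exact smul_comm _ _ _ }
    have hf : Function.Injective f := by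
      intro u v huv
      have h1 : (K : ℤ) • u = (K : ℤ) • v := congrArg Subtype.val huv
      exact smul_right_injective _ (by exact_mod_cast hK0) h1
    have h2 := LinearMap.finrank_le_finrank_of_injective hf
    rwa [Module.finrank_fin_fun] at h2
  have hge : Module.finrank ℤ N ≤ m := by
    have h2 := Submodule.finrank_le N
    rwa [Module.finrank_fin_fun] at h2
  have hn : n = m := by
    have h3 := Module.finrank_eq_card_basis b
    rw [Fintype.card_fin] at h3
    omega
  subst hn
  refine ⟨(N.subtype ∘ₗ b.equivFun.symm.toLinearMap).toAddMonoidHom, ?_, ?_⟩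
  · intro u v huv
    have h1 : ((b.equivFun.symm u : N) : Fin n → ℤ) = (b.equivFun.symm v : N) := huv
    exact b.equivFun.symm.injective (Subtype.ext h1)
  · intro u
    constructor
    · intro hu
      refine ⟨b.equivFun ⟨u, hu⟩, ?_⟩
      show ((b.equivFun.symm (b.equivFun ⟨u, hu⟩) : N) : Fin n → ℤ) = u
      rw [LinearEquiv.symm_apply_apply]
    · rintro ⟨u', rfl⟩
      exact (b.equivFun.symm u' : N).2

end UNC
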