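import Pool.Agent.UNC.St
import Pool.Agent.MldG.NHP

/-!
# Homogeneous functions have order zero along a prime divisor which is not invariant
-/

set_option autoImplicit false

namespace UNC

open MldGeo

theorem t_NIN : S_NIN := by
  intro n m X A w Q hw hinv u a ha h0
  obtain ⟨hP, hh, hnn, hmem⟩ := hw
  have h1 := MldG.NHP.not_mem A Q hP hh hinv ha h0
  have h2 : ¬ 0 < w.ord (a : X.K) := fun h => h1 ((hmem a).2 (Or.inr h))
  have h3 := hnn a
  omega

end UNC
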