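import Pool.Agent.UNC.St

/-!
# Module PRM: prime divisors of the quotient and of the germ
-/

set_option autoImplicit false

namespace UNC

open MldGeo NDQ

namespace PRM_aux

variable {n : ℕ} {X Z : Germ n} {G : Subgroup (X.K ≃ₐ[ℂ] X.K)} {ι : Z.K →ₐ[ℂ] X.K}

/-- the inclusion of the rings of regular functions -/
noncomputable def res (hq : IsQuot X Z G ι) : Z.R →+* X.R where
  toFun b := ⟨ι b, (hq.mem_R b).1 b.2⟩
  map_one' := by apply Subtype.ext; simp
  map_zero' := by apply Subtype.ext; simp
  map_mul' a b := by apply Subtype.ext; simp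
  map_add' a b := by apply Subtype.ext; simp

theorem res_coe (hq : IsQuot X Z G ι) (b : Z.R) : ((res hq b : X.R) : X.K) = ι b := rfl

/-- the group acts on the ring of regular functions -/
@[reducible] noncomputable def act (hq : IsQuot X Z G ι) : MulSemiringAction G X.R where
  smul g a := ⟨g.1 (a : X.K), hq.map_R g.1 g.2 _ a.2⟩
  one_smul a := by apply Subtype.ext; rfl
  mul_smul g h a := by apply Subtype.ext; rfl
  smul_zero g := by apply Subtype.ext; exact map_zero g.1
  smul_add g a b := by apply Subtype.ext; exact map_add g.1 _ _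
  smul_one g := by apply Subtype.ext; exact map_one g.1
  smul_mul g a b := by apply Subtype.ext; exact map_mul g.1 _ _

theorem res_integral (hq : IsQuot X Z G ι) : (res hq).IsIntegral := by
  have hfin := hq.finite
  let _ : Algebra Z.R X.R := (res hq).toAlgebra
  let _ : MulSemiringAction G X.R := act hq
  have hinv : Algebra.IsInvariant Z.R X.R G := by
    refine ⟨fun a ha => ?_⟩
    have h1 : ∀ g ∈ G, g (a : X.K) = a := by
      intro g hg
      have := congrArg (Subtype.val) (ha ⟨g, hg⟩)
      exact this
    obtain ⟨b, hb⟩ := (hq.inv a).2 h1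
    have hbR : b ∈ Z.R := (hq.mem_R b).2 (by rw [hb]; exact a.2)
    refine ⟨⟨b, hbR⟩, ?_⟩
    apply Subtype.ext
    exact hb
  have := Algebra.IsInvariant.isIntegral Z.R X.R G
  exact fun x => this.isIntegral x

/-- the order is nonnegative on `X.R` and the functions of positive order form an ideal -/
noncomputable def ctr (w : DivVal n X.K) (h0 : ∀ a : X.R, 0 ≤ w.ord a) : Ideal X.R where
  carrier := {a | a = 0 ∨ 0 < w.ord a}
  zero_mem' := Or.inl rfl
  add_mem' := by
    intro a b ha hb
    by_cases ha0 : a = 0
    · subst ha0; rwa [zero_add]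
    by_cases hb0 : b = 0
    · subst hb0; rwa [add_zero]
    by_cases hab : a + b = 0
    · exact Or.inl hab
    right
    have h1 := w.ord_add (a : X.K) b (fun h => ha0 (Subtype.ext h)) (fun h => hb0 (Subtype.ext h))
      (fun h => hab (Subtype.ext h))
    have h2 : 0 < w.ord (a : X.K) := ha.resolve_left ha0
    have h3 : 0 < w.ord (b : X.K) := hb.resolve_left hb0
    exact lt_of_lt_of_le (lt_min h2 h3) h1
  smul_mem' := by
    intro c a ha
    by_cases ha0 : a = 0
    · subst ha0; left; simp
    by_cases hc0 : c = 0
    · subst hc0; left; simp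
    right
    have h1 := w.ord_mul (c : X.K) a (fun h => hc0 (Subtype.ext h)) (fun h => ha0 (Subtype.ext h))
    have h2 : 0 < w.ord (a : X.K) := ha.resolve_left ha0
    have h3 := h0 c
    show 0 < w.ord ((c : X.K) * a)
    omega

theorem mem_ctr (w : DivVal n X.K) (h0 : ∀ a : X.R, 0 ≤ w.ord a) (a : X.R) :
    a ∈ ctr w h0 ↔ a = 0 ∨ 0 < w.ord a := Iff.rfl

theorem ctr_prime (w : DivVal n X.K) (h0 : ∀ a : X.R, 0 ≤ w.ord a) : (ctr w h0).IsPrime := by
  refine ⟨?_, ?_⟩
  · rw [Ideal.ne_top_iff_one, mem_ctr]
    rintro (h | h)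
    · exact one_ne_zero h
    · have h1 := w.ord_const 1
      rw [map_one] at h1
      have h2 : ((1 : X.R) : X.K) = 1 := rfl
      rw [h2] at h
      omega
  · intro a b hab
    by_cases ha0 : a = 0
    · left; rw [mem_ctr]; exact Or.inl ha0
    by_cases hb0 : b = 0
    · right; rw [mem_ctr]; exact Or.inl hb0
    rw [mem_ctr] at hab
    rcases hab with h | h
    · rcases mul_eq_zero.1 h with h | h
      · exact absurd h ha0
      · exact absurd h hb0
    · have h1 := w.ord_mul (a : X.K) b (fun h => ha0 (Subtype.ext h)) (fun h => hb0 (Subtype.ext h))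
      have h2 : ((a * b : X.R) : X.K) = (a : X.K) * b := rfl
      rw [h2, h1] at h
      have h3 := h0 a
      have h4 := h0 b
      by_cases h5 : 0 < w.ord (a : X.K)
      · left; rw [mem_ctr]; exact Or.inr h5
      · right; rw [mem_ctr]; right; omega

end PRM_aux

open PRM_aux in
theorem t_PRM : S_PRM := by
  intro hTHT n X Z G ι hq w z e hover P hPm hord
  obtain ⟨hPp, hPh, hz0, hPmem⟩ := hord
  have hzT : Z.Through z := by
    refine ⟨hz0, fun a ha => ?_⟩
    have h1 : a ∉ P := fun h => ha (hPm h)
    rw [hPmem] at h1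
    push Not at h1
    have h2 := hz0 a
    omega
  have hwT : X.Through w := ((hTHT X Z G ι hq).1 w z e hover).2 hzT
  have h0 := hwT.1
  have hQp := ctr_prime w h0
  have hcontr : Contr ι (ctr w h0) P := by
    intro b
    rw [hPmem]
    constructor
    · intro hb
      refine ⟨res hq b, ?_, rfl⟩
      rw [mem_ctr]
      rcases hb with hb | hb
      · left; rw [hb, map_zero]
      · right
        rw [res_coe, hover.2]
        exact mul_pos (by exact_mod_cast hover.1) hb
    · rintro ⟨a, ha, hab⟩
      rw [mem_ctr] at ha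
      rcases ha with ha | ha
      · left
        rw [ha] at hab
        have h1 : ι (b : Z.K) = 0 := hab.symm
        exact Subtype.ext ((map_eq_zero ι).1 h1)
      · right
        rw [hab, hover.2] at ha
        exact (mul_pos_iff_of_pos_left (by exact_mod_cast hover.1)).1 ha
  have hcomap : (ctr w h0).comap (res hq) = P := by
    ext b
    rw [Ideal.mem_comap, hcontr b]
    constructor
    · intro h
      exact ⟨_, h, rfl⟩
    · rintro ⟨a, ha, hab⟩
      have : a = res hq b := Subtype.ext hab
      rwa [← this]
  have hPbot : P ≠ ⊥ := by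
    intro h
    rw [h, Ideal.height_bot] at hPh
    exact zero_ne_one hPh
  refine ⟨ctr w h0, ?_, ⟨hQp, ?_, h0, mem_ctr w h0⟩, hcontr⟩
  · intro a ha
    rw [mem_ctr] at ha
    rcases ha with ha | ha
    · rw [ha]; exact Ideal.zero_mem _
    · by_contra hm
      have := hwT.2 a hm
      omega
  · apply le_antisymm
    · have h1 : (ctr w h0).height ≤ ((1 : ℕ) : ℕ∞) := by
        rw [Ideal.height_le_iff]
        intro Q' hQ' hlt
        have hbot : Q' = ⊥ := by
          let _ : Algebra Z.R X.R := (res hq).toAlgebra
          have hint : Algebra.IsIntegral Z.R X.R := ⟨res_integral hq⟩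
          have h2 : Q'.comap (algebraMap Z.R X.R) < (ctr w h0).comap (algebraMap Z.R X.R) :=
            Ideal.IsIntegral.comap_lt_comap hlt
          have h3 : (ctr w h0).comap (algebraMap Z.R X.R) = P := hcomap
          rw [h3] at h2
          have hp' : (Q'.comap (algebraMap Z.R X.R)).IsPrime := Ideal.comap_isPrime _ _
          have h4 := Ideal.height_add_one_le_of_lt_of_isPrime h2
          rw [hPh] at h4
          have h5 : (Q'.comap (algebraMap Z.R X.R)).height = 0 := by
            by_contra hne
            have h6 := Order.one_le_iff_ne_zero.2 hne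
            have h7 : (1 : ℕ∞) + 1 ≤ 1 := le_trans (add_le_add_left h6 1) h4
            exact absurd h7 (by decide)
          rw [Ideal.height_eq_zero_iff_eq_bot] at h5
          exact Ideal.eq_bot_of_comap_eq_bot h5
        rw [hbot, Ideal.height_bot]
        exact_mod_cast Nat.one_pos
      simpa using h1
    · rw [Order.one_le_iff_ne_zero]
      intro h
      rw [Ideal.height_eq_zero_iff_eq_bot] at h
      obtain ⟨b, hbP, hb0⟩ := Submodule.exists_mem_ne_zero_of_ne_bot hPbot
      obtain ⟨a, ha, hab⟩ := (hcontr b).1 hbP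
      rw [h, Ideal.mem_bot] at ha
      rw [ha] at hab
      apply hb0
      have h1 : ι (b : Z.K) = 0 := hab.symm
      exact Subtype.ext ((map_eq_zero ι).1 h1)

end UNC
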