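import Pool.Agent.UNC.St

/-!
# Module RAM: a prime divisor which is not invariant is not ramified
-/

set_option autoImplicit false

namespace UNC

open MldGeo NDQ

namespace RAM_aux

variable {n m : ℕ}

/-- an automorphism which fixes the semi-invariant functions is the identity on `X.R` -/
theorem fix_R {X : Germ n} (A : MldG.TorusAction X m) (h : X.K ≃ₐ[ℂ] X.K)
    (hfix : ∀ (u : Fin m → ℤ) (a : X.R), a ∈ A.gr u → h (a : X.K) = a) (a : X.R) :
    h (a : X.K) = a := by
  let _ := A.graded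
  induction a using DirectSum.Decomposition.inductionOn A.gr with
  | zero => simp
  | add a b ha hb => rw [Subalgebra.coe_add, map_add, ha, hb]
  | homogeneous a => exact hfix _ _ a.2

/-- an automorphism which is the identity on `X.R` is the identity -/
theorem fix_K {X : Germ n} (h : X.K ≃ₐ[ℂ] X.K) (hfix : ∀ a : X.R, h (a : X.K) = a) (a : X.K) :
    h a = a := by
  obtain ⟨r, hr, s, hs, hs0, has⟩ := X.frac a
  have h1 : h a * h s = h r := by rw [← map_mul, has]
  rw [hfix ⟨s, hs⟩, hfix ⟨r, hr⟩] at h1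
  have h2 : h a * s = a * s := by rw [h1, has]
  exact mul_right_cancel₀ hs0 h2

end RAM_aux

open RAM_aux in
theorem t_RAM : S_RAM := by
  intro hQGAL hNIN n m X Z G ι hn hq A hcomm w z e Q hover hord hninv
  obtain ⟨-, -, h3, -⟩ := hQGAL X Z G ι hn hq
  obtain ⟨h, hhG, -, hge⟩ := h3 w z e hover
  have hfix1 : ∀ (u : Fin m → ℤ) (a : X.R), a ∈ A.gr u → h (a : X.K) = a := by
    intro u a ha
    by_cases ha0 : a = 0
    · subst ha0; simp
    have hwa : w.ord (a : X.K) = 0 := hNIN X A w Q hord hninv u a ha ha0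
    have haK : (a : X.K) ≠ 0 := fun h0 => ha0 (Subtype.ext h0)
    have h4 := hge (a : X.K) haK
    rw [hwa] at h4
    have e1 : Complex.exp (2 * Real.pi * Complex.I * ((0 : ℤ) : ℂ) / e) = 1 := by simp
    rw [e1, map_one, one_mul] at h4
    set b : X.R := ⟨h (a : X.K), hq.map_R h hhG _ a.2⟩ with hb
    have hbg : b ∈ A.gr u := hcomm h hhG u a b ha rfl
    have hba : b - a ∈ A.gr u := Submodule.sub_mem _ hbg ha
    have e2 : ((b - a : X.R) : X.K) = h (a : X.K) - a := rfl
    by_contra hne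
    have hba0 : b - a ≠ 0 := by
      intro h0
      have : ((b - a : X.R) : X.K) = 0 := by rw [h0]; rfl
      rw [e2, sub_eq_zero] at this
      exact hne this
    have h5 := hNIN X A w Q hord hninv u (b - a) hba hba0
    rw [e2] at h5
    rcases h4 with h4 | h4
    · exact hne (sub_eq_zero.1 h4)
    · rw [h5] at h4
      omega
  have hfix := fix_K h (fix_R A h hfix1)
  obtain ⟨t, ht0, ht1⟩ := w.unif
  have h4 := hge t ht0
  rw [ht1, hfix t] at h4
  set c : ℂ := Complex.exp (2 * Real.pi * Complex.I * ((1 : ℤ) : ℂ) / e) with hc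
  have e3 : t - algebraMap ℂ X.K c * t = algebraMap ℂ X.K (1 - c) * t := by
    rw [map_sub, map_one]; ring
  rw [e3] at h4
  have he := hover.1
  have hc1 : c = 1 := by
    by_contra hne
    have hne' : (1 : ℂ) - c ≠ 0 := fun h0 => hne (sub_eq_zero.1 h0).symm
    have hcK : algebraMap ℂ X.K (1 - c) ≠ 0 :=
      fun h0 => hne' ((algebraMap ℂ X.K).injective (by rw [h0, map_zero]))
    rcases h4 with h4 | h4
    · exact (mul_ne_zero hcK ht0) h4
    · rw [w.ord_mul _ _ hcK ht0, w.ord_const, ht1] at h4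
      omega
  obtain ⟨N, hN⟩ := Complex.exp_eq_one_iff.1 hc1
  have hpi : (2 * Real.pi * Complex.I : ℂ) ≠ 0 := Complex.two_pi_I_ne_zero
  have heC : (e : ℂ) ≠ 0 := by exact_mod_cast he.ne'
  have h6 : (N : ℂ) * e = 1 := by
    rw [Int.cast_one, mul_one, div_eq_iff heC] at hN
    have h7 : (2 * Real.pi * Complex.I : ℂ) * 1 = (2 * Real.pi * Complex.I) * (N * e) := by
      rw [mul_one]
      calc (2 * Real.pi * Complex.I : ℂ) = N * (2 * Real.pi * Complex.I) * e := hN
        _ = _ := by ring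
    exact (mul_left_cancel₀ hpi h7).symm
  have h8 : N * (e : ℤ) = 1 := by exact_mod_cast h6
  have h9 : (e : ℤ) = 1 ∨ (e : ℤ) = -1 := Int.isUnit_iff.1 (IsUnit.of_mul_eq_one N (by rw [mul_comm]; exact h8))
  omega

end UNC
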