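import Pool.Agent.UNC.St

/-!
# The torus acts on the quotient
-/

set_option autoImplicit false

namespace UNC

open MldGeo NDQ

namespace TAZ_aux

attribute [local instance] MldG.TorusAction.graded

variable {n m : ℕ} {X Z : Germ n} {G : Subgroup (X.K ≃ₐ[ℂ] X.K)} {ι : Z.K →ₐ[ℂ] X.K}

/-- The inclusion of the regular functions. -/
noncomputable def inc (h : IsQuot X Z G ι) : Z.R →ₐ[ℂ] X.R :=
  (ι.comp Z.R.val).codRestrict X.R fun b => (h.mem_R b).1 b.2

lemma coe_inc (h : IsQuot X Z G ι) (b : Z.R) : ((inc h b : X.R) : X.K) = ι b := rfl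

lemma inc_injective (h : IsQuot X Z G ι) : Function.Injective (inc h) := by
  intro a b hab
  have h1 : ι (a : Z.K) = ι (b : Z.K) := by
    rw [← coe_inc h, ← coe_inc h, hab]
  exact Subtype.ext (ι.toRingHom.injective h1)

/-- The action on the regular functions. -/
noncomputable def act (h : IsQuot X Z G ι) (g : X.K ≃ₐ[ℂ] X.K) (hg : g ∈ G) : X.R →ₐ[ℂ] X.R :=
  ((g : X.K →ₐ[ℂ] X.K).comp X.R.val).codRestrict X.R fun a => h.map_R g hg a a.2

lemma coe_act (h : IsQuot X Z G ι) (g : X.K ≃ₐ[ℂ] X.K) (hg : g ∈ G) (a : X.R) :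
    ((act h g hg a : X.R) : X.K) = g a := rfl

lemma act_mem (h : IsQuot X Z G ι) (A : MldG.TorusAction X m) (g : X.K ≃ₐ[ℂ] X.K) (hg : g ∈ G)
    (hC : Comm A g) (u : Fin m → ℤ) (a : X.R) (ha : a ∈ A.gr u) : act h g hg a ∈ A.gr u :=
  hC u a _ ha rfl

lemma act_inc (h : IsQuot X Z G ι) (g : X.K ≃ₐ[ℂ] X.K) (hg : g ∈ G) (b : Z.R) :
    act h g hg (inc h b) = inc h b := by
  apply Subtype.ext
  rw [coe_act, coe_inc]
  exact (h.inv (ι b)).1 ⟨b, rfl⟩ g hg

/-- The components are mapped to the components. -/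
lemma decompose_act (h : IsQuot X Z G ι) (A : MldG.TorusAction X m) (g : X.K ≃ₐ[ℂ] X.K)
    (hg : g ∈ G) (hC : Comm A g) (x : X.R) (u : Fin m → ℤ) :
    ((DirectSum.decompose A.gr (act h g hg x) u : A.gr u) : X.R) =
      act h g hg (DirectSum.decompose A.gr x u : A.gr u) := by
  induction x using DirectSum.Decomposition.inductionOn A.gr with
  | zero => simp
  | @homogeneous v a =>
    by_cases hv : v = u
    · subst hv
      rw [DirectSum.decompose_of_mem_same A.gr (act_mem h A g hg hC v a a.2),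
        DirectSum.decompose_of_mem_same A.gr a.2]
    · rw [DirectSum.decompose_of_mem_ne A.gr (act_mem h A g hg hC v a a.2) hv,
        DirectSum.decompose_of_mem_ne A.gr a.2 hv, map_zero]
  | add a b ha hb =>
    rw [map_add, DirectSum.decompose_add, DirectSum.decompose_add, DirectSum.add_apply,
      DirectSum.add_apply, Submodule.coe_add, Submodule.coe_add, ha, hb, map_add]

/-- The components of an invariant function are invariant functions. -/
lemma exists_comp (h : IsQuot X Z G ι) (A : MldG.TorusAction X m) (hC : ∀ g ∈ G, Comm A g)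
    (b : Z.R) (u : Fin m → ℤ) :
    ∃ c : Z.R, inc h c = ((DirectSum.decompose A.gr (inc h b) u : A.gr u) : X.R) := by
  set a : X.R := ((DirectSum.decompose A.gr (inc h b) u : A.gr u) : X.R) with ha
  have h1 : ∀ g ∈ G, g (a : X.K) = a := by
    intro g hg
    rw [← coe_act h g hg, ha, ← decompose_act h A g hg (hC g hg), act_inc]
  obtain ⟨c, hc⟩ := (h.inv (a : X.K)).2 h1
  have hcR : c ∈ Z.R := (h.mem_R c).2 (by rw [hc]; exact a.2)
  exact ⟨⟨c, hcR⟩, Subtype.ext hc⟩

/-- The subgroup of the weights. -/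
def wts (h : IsQuot X Z G ι) (A : MldG.TorusAction X m) : Set (Fin m → ℤ) :=
  {u | ∃ b : Z.R, b ≠ 0 ∧ inc h b ∈ A.gr u}

/-- The norm of a semi-invariant function. -/
lemma card_smul_mem (h : IsQuot X Z G ι) (A : MldG.TorusAction X m) (hC : ∀ g ∈ G, Comm A g)
    (u : Fin m → ℤ) (hu : A.gr u ≠ ⊥) : Nat.card G • u ∈ wts h A := by
  classical
  have hfin := h.finite
  let _ : Fintype G := Fintype.ofFinite G
  obtain ⟨a, ha, ha0⟩ := Submodule.exists_mem_ne_zero_of_ne_bot hu
  let N : X.R := ∏ g : G, act h g.1 g.2 a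
  have hN : N ∈ A.gr (Nat.card G • u) := by
    have h1 := SetLike.prod_mem_graded A.gr (fun _ : G => u) (fun g : G => act h g.1 g.2 a)
      (F := Finset.univ) (fun g _ => act_mem h A g.1 g.2 (hC g.1 g.2) u a ha)
    rw [Finset.sum_const, Finset.card_univ, ← Nat.card_eq_fintype_card] at h1
    exact h1
  have hNK : (N : X.K) = ∏ g : G, g.1 (a : X.K) := by
    show ((∏ g : G, act h g.1 g.2 a : X.R) : X.K) = _
    rw [← Subalgebra.coe_val, map_prod]
    rfl
  have hinv : ∀ g ∈ G, g (N : X.K) = N := by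
    intro g hg
    rw [hNK, map_prod]
    exact Fintype.prod_equiv (Equiv.mulLeft (⟨g, hg⟩ : G)) _ _ fun x => rfl
  obtain ⟨c, hc⟩ := (h.inv (N : X.K)).2 hinv
  have hcR : c ∈ Z.R := (h.mem_R c).2 (by rw [hc]; exact N.2)
  have hN0 : (N : X.K) ≠ 0 := by
    rw [hNK, Finset.prod_ne_zero_iff]
    intro g _ h0
    apply ha0
    apply Subtype.ext
    exact (map_eq_zero_iff g.1 g.1.injective).1 h0
  refine ⟨⟨c, hcR⟩, ?_, ?_⟩
  · intro h0
    apply hN0
    rw [← hc, show c = 0 from congrArg Subtype.val h0, map_zero]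
  · have h2 : inc h ⟨c, hcR⟩ = N := Subtype.ext hc
    rw [h2]
    exact hN

lemma exists_smul_mem (h : IsQuot X Z G ι) (A : MldG.TorusAction X m) (hC : ∀ g ∈ G, Comm A g)
    (u : Fin m → ℤ) : ∃ k : ℕ, 0 < k ∧ k • u ∈ AddSubgroup.closure (wts h A) := by
  have hfin := h.finite
  refine ⟨Nat.card G, Nat.card_pos, ?_⟩
  have hu : u ∈ AddSubgroup.closure {u | A.gr u ≠ ⊥} := by
    rw [A.effective]
    exact AddSubgroup.mem_top u
  induction hu using AddSubgroup.closure_induction with
  | mem v hv => exact AddSubgroup.subset_closure (card_smul_mem h A hC v hv)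
  | zero => rw [smul_zero]; exact AddSubgroup.zero_mem _
  | add v w _ _ hv hw => rw [smul_add]; exact AddSubgroup.add_mem _ hv hw
  | neg v _ hv => rw [smul_neg]; exact AddSubgroup.neg_mem _ hv

end TAZ_aux

open TAZ_aux

attribute [local instance] MldG.TorusAction.graded

theorem t_TAZ : S_TAZ := by
  classical
  intro hLAT n m X Z G ι h A hC
  obtain ⟨φ, hφ, hM⟩ := hLAT (AddSubgroup.closure (wts h A)) (exists_smul_mem h A hC)
  let gr : (Fin m → ℤ) → Submodule ℂ Z.R := fun u => (A.gr (φ u)).comap (inc h).toLinearMap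
  have hgr : ∀ u b, b ∈ gr u ↔ inc h b ∈ A.gr (φ u) := fun u b => Iff.rfl
  -- the components
  have hcomp : ∀ b : Z.R, ∃ c : (Fin m → ℤ) → Z.R,
      (∀ u, inc h (c u) = ((DirectSum.decompose A.gr (inc h b) u : A.gr u) : X.R)) ∧
      b = ∑ u ∈ (DirectSum.decompose A.gr (inc h b)).support, c u ∧
      ∀ u, c u ≠ 0 → ∃ u', c u ∈ gr u' := by
    intro b
    choose c hc using exists_comp h A hC b
    refine ⟨c, hc, ?_, ?_⟩
    · apply inc_injective h
      rw [map_sum]
      conv_lhs => rw [← DirectSum.sum_support_decompose A.gr (inc h b)]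
      exact Finset.sum_congr rfl fun u _ => (hc u).symm
    · intro u hu
      have h1 : inc h (c u) ∈ A.gr u := by
        rw [hc u]
        exact (DirectSum.decompose A.gr (inc h b) u).2
      obtain ⟨u', hu'⟩ := (hM u).1 (AddSubgroup.subset_closure ⟨c u, hu, h1⟩)
      refine ⟨u', ?_⟩
      rw [hgr, hu']
      exact h1
  have hind : iSupIndep gr := by
    intro i
    rw [Submodule.disjoint_def]
    intro x hx hx'
    have hA : iSupIndep A.gr := (DirectSum.Decomposition.isInternal A.gr).submodule_iSupIndep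
    have h1 : inc h x ∈ ⨆ j, ⨆ (_ : j ≠ φ i), A.gr j := by
      have h2 : (⨆ j, ⨆ (_ : j ≠ i), gr j) ≤
          (⨆ j, ⨆ (_ : j ≠ φ i), A.gr j).comap (inc h).toLinearMap := by
        refine iSup_le fun j => iSup_le fun hj => ?_
        refine Submodule.comap_mono ?_
        exact le_iSup_of_le (φ j) (le_iSup_of_le (fun e => hj (hφ e)) le_rfl)
      exact h2 hx'
    have h3 := Submodule.disjoint_def.1 (hA (φ i)) (inc h x) hx h1
    exact inc_injective h (by rw [h3, map_zero])
  have htop : iSup gr = ⊤ := by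
    rw [eq_top_iff]
    intro b _
    obtain ⟨c, _, hb, hc⟩ := hcomp b
    rw [hb]
    refine Submodule.sum_mem _ fun u _ => ?_
    by_cases h0 : c u = 0
    · rw [h0]; exact Submodule.zero_mem _
    · obtain ⟨u', hu'⟩ := hc u h0
      exact Submodule.mem_iSup_of_mem u' hu'
  have hint : DirectSum.IsInternal gr :=
    DirectSum.isInternal_submodule_of_iSupIndep_of_iSup_eq_top hind htop
  let dec : DirectSum.Decomposition gr := hint.chooseDecomposition
  have hone : (1 : Z.R) ∈ gr 0 := by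
    rw [hgr, map_one, map_zero]
    exact SetLike.GradedOne.one_mem
  have hmul : ∀ ⦃i j : Fin m → ℤ⦄ {a b : Z.R}, a ∈ gr i → b ∈ gr j → a * b ∈ gr (i + j) := by
    intro i j a b ha hb
    rw [hgr, map_mul, map_add]
    exact SetLike.GradedMul.mul_mem ha hb
  let grd : GradedAlgebra gr :=
    { one_mem := hone
      mul_mem := hmul
      toDecomposition := dec }
  have heff : AddSubgroup.closure {u | gr u ≠ ⊥} = ⊤ := by
    rw [eq_top_iff]
    intro u' _
    have key : ∀ u ∈ AddSubgroup.closure (wts h A),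
        ∃ v ∈ AddSubgroup.closure {u | gr u ≠ ⊥}, φ v = u := by
      intro u hu
      induction hu using AddSubgroup.closure_induction with
      | mem v hv =>
        obtain ⟨w, hw⟩ := (hM v).1 (AddSubgroup.subset_closure hv)
        obtain ⟨b, hb, hbv⟩ := hv
        refine ⟨w, AddSubgroup.subset_closure ?_, hw⟩
        show gr w ≠ ⊥
        intro h0
        apply hb
        have : b ∈ gr w := by rw [hgr, hw]; exact hbv
        rw [h0] at this
        exact (Submodule.mem_bot ℂ).1 this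
      | zero => exact ⟨0, AddSubgroup.zero_mem _, map_zero φ⟩
      | add v w _ _ hv hw =>
        obtain ⟨v', hv1, hv2⟩ := hv
        obtain ⟨w', hw1, hw2⟩ := hw
        exact ⟨v' + w', AddSubgroup.add_mem _ hv1 hw1, by rw [map_add, hv2, hw2]⟩
      | neg v _ hv =>
        obtain ⟨v', hv1, hv2⟩ := hv
        exact ⟨-v', AddSubgroup.neg_mem _ hv1, by rw [map_neg, hv2]⟩
    obtain ⟨v, hv, hvu⟩ := key (φ u') ((hM (φ u')).2 ⟨u', rfl⟩)
    rw [← hφ hvu]
    exact hv
  refine ⟨{ gr := gr, graded := grd, effective := heff }, ?_⟩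
  intro I I' hI ⟨s, hs, hIs⟩
  have hmem : ∀ b : Z.R, b ∈ I' ↔ inc h b ∈ I := by
    intro b
    rw [hI b]
    constructor
    · rintro ⟨a, ha, hab⟩
      have : inc h b = a := Subtype.ext hab.symm
      rw [this]
      exact ha
    · intro hb
      exact ⟨inc h b, hb, rfl⟩
  have hhom : I.IsHomogeneous A.gr := by
    rw [hIs]
    exact Ideal.homogeneous_span A.gr s hs
  refine ⟨{b | b ∈ I' ∧ ∃ u, b ∈ gr u}, fun a ha => ha.2, ?_⟩
  apply le_antisymm
  · intro b hb
    obtain ⟨c, hc1, hc2, hc3⟩ := hcomp b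
    rw [hc2]
    refine Ideal.sum_mem _ fun u _ => ?_
    by_cases h0 : c u = 0
    · rw [h0]; exact Ideal.zero_mem _
    · refine Ideal.subset_span ⟨?_, hc3 u h0⟩
      rw [hmem, hc1]
      exact hhom u ((hmem b).1 hb)
  · rw [Ideal.span_le]
    intro b hb
    exact hb.1

end UNC
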