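import Pool.Agent.UNC.St
import Pool.Agent.MldGeo.PULQ

/-! # TRZ: the triple on the quotient -/

set_option autoImplicit false

namespace UNC

open MldGeo NDQ

noncomputable section

namespace TRZ_aux

variable {n : ℕ}

/-- the inclusion of the function field of `Y = X / G` in the one of `Z = X / H`, `H ≤ G` -/
theorem exists_kappa {X Y Z : Germ n} {G H : Subgroup (X.K ≃ₐ[ℂ] X.K)} {π : Y.K →ₐ[ℂ] X.K}
    {ι : Z.K →ₐ[ℂ] X.K} (hY : IsQuot X Y G π) (hZ : IsQuot X Z H ι) (hle : H ≤ G) :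
    ∃ κ : Y.K →ₐ[ℂ] Z.K, ∀ b, ι (κ b) = π b := by
  have hr : ∀ b, π b ∈ ι.range := by
    intro b
    obtain ⟨c, hc⟩ := (hZ.inv (π b)).2 fun h hh => (hY.inv (π b)).1 ⟨b, rfl⟩ h (hle hh)
    exact ⟨c, hc⟩
  refine ⟨((AlgEquiv.ofInjective ι ι.injective).symm : ι.range →ₐ[ℂ] Z.K).comp
    (π.codRestrict ι.range hr), fun b => ?_⟩
  have h1 : AlgEquiv.ofInjective ι ι.injective
      ((AlgEquiv.ofInjective ι ι.injective).symm (π.codRestrict ι.range hr b)) =
        π.codRestrict ι.range hr b := AlgEquiv.apply_symm_apply _ _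
  exact congrArg Subtype.val h1

end TRZ_aux

theorem t_TRZ : S_TRZ := by
  intro hQGAL hTBAS _ hTXT hTRI n X Y Z G H π ι T T' hn hY hcr hZ hle hinv
  obtain ⟨κ, hκ⟩ := TRZ_aux.exists_kappa hY hZ hle
  obtain ⟨a, ha⟩ := PULQ.exists_basis Y.trdeg
  obtain ⟨g, hg, hω⟩ := PULQ.exists_dlogs hTBAS Y.trdeg a ha T'.ω T'.ω_ne
  have hκa : AlgebraicIndependent ℂ (fun i => κ (a i)) := ha.map' (f := κ) κ.injective
  have hD : dlogs (fun i => κ (a i)) ≠ 0 := PULQ.dlogs_ne hTBAS Z.trdeg _ hκa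
  have hD' : dlogs a ≠ 0 := PULQ.dlogs_ne hTBAS Y.trdeg _ ha
  have hκg : κ g ≠ 0 := (map_ne_zero κ).2 hg
  choose s hs hspan using hinv
  choose I' hI' hI0 hord using fun j => hTRI X Z H ι hZ (T.a j) (s j) (hs j) (hspan j) (T.a_ne j)
  let TZ : Triple Z :=
    { ω := κ g • dlogs (fun i => κ (a i))
      ω_ne := smul_ne_zero hκg hD
      I := T'.I
      finI := T'.finI
      f := fun i => κ (T'.f i)
      f_ne := fun i => (map_ne_zero κ).2 (T'.f_ne i)
      c := T'.c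
      J := T.J
      finJ := T.finJ
      a := I'
      a_ne := hI0
      r := T.r
      r_nonneg := T.r_nonneg }
  refine ⟨TZ, Equiv.refl _, fun j => rfl, fun j => hI' j, ?_, ?_⟩
  · intro w z e Q hQm hal hov
    obtain ⟨v, e', hov'⟩ := (hQGAL X Y G π hn hY).1 w
    have h1 := ((hQGAL X Y G π hn hY).2.2.2 w v e' hov' g a hg (fun i => ha.ne_zero i) hD').2
    have h2 := ((hQGAL X Z H ι hn hZ).2.2.2 w z e hov (κ g) (fun i => κ (a i)) hκg
      (fun i => hκa.ne_zero i) hD).2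
    simp only [hκ] at h2
    rw [h1, ← hω] at h2
    have h3 : (e' : ℝ) * v.logOrd T'.ω = e * z.logOrd TZ.ω := by exact_mod_cast h2
    rw [hcr.div w v e' Q hQm hal hov', PULQ.logDisc_eq hTXT hn, PULQ.logDisc_eq hTXT hn, mul_add,
      mul_add, h3, Finset.mul_sum, Finset.mul_sum]
    refine congrArg (fun y => (e : ℝ) * z.logOrd TZ.ω + y) ?_
    refine Finset.sum_congr rfl fun i _ => ?_
    have h4 : w.ord (π (T'.f i)) = e' * v.ord (T'.f i) := hov'.2 _
    have h5 : w.ord (ι (κ (T'.f i))) = e * z.ord (κ (T'.f i)) := hov.2 _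
    rw [hκ, h4] at h5
    have h6 : (e' : ℝ) * v.ord (T'.f i) = e * z.ord (κ (T'.f i)) := by exact_mod_cast h5
    show (e' : ℝ) * (T'.c i * v.ord (T'.f i)) = e * (T'.c i * z.ord (κ (T'.f i)))
    rw [mul_left_comm, h6, mul_left_comm]
  · intro w z e hw hov
    rw [Finset.mul_sum]
    refine Finset.sum_congr rfl fun j _ => ?_
    show T.r j * (idealOrd w (T.a j) : ℝ) = e * (T.r j * idealOrd z (I' j))
    have h7 := hord j w z e hw hov
    have h8 : (idealOrd w (T.a j) : ℝ) = e * idealOrd z (I' j) := by exact_mod_cast h7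
    rw [h8, mul_left_comm]

end

end UNC
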