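import Pool.Agent.NDQ.All
import Pool.Agent.MldG.Fin2
import Pool.Agent.UNC.ASM2
import Pool.Agent.UNC.FGI
import Pool.Agent.UNC.EXQ
import Pool.Agent.UNC.LAT
import Pool.Agent.UNC.TAZ
import Pool.Agent.UNC.THT
import Pool.Agent.UNC.PRM
import Pool.Agent.UNC.NIN
import Pool.Agent.UNC.RAM
import Pool.Agent.UNC.TRI
import Pool.Agent.UNC.TRZ
import Pool.Agent.UNC.EFC
import Pool.Agent.UNC.DCC
import Pool.Agent.UNC.CONT

/-!
# The ascending chain condition: quotients of nondegenerate complete intersections, of toric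
varieties and of varieties with a torus action of complexity one
-/

set_option autoImplicit false

namespace UNC

open MldGeo NDQ

/-- The theorem. -/
theorem unMld_acc (n N : ℕ) (D : Set ℝ) (hD : D.IsWF) (x : ℕ → ℝ)
    (hx : ∀ k, x k ∈ unMld n N D) : ¬ StrictMono x := by
  have FRA : Stmt_FRA := t_FRA
  have TBAS : Stmt_TBAS := t_TBAS
  have LOGD : Stmt_LOGD := t_LOGD FRA
  have COE : Stmt_COE := MldGeo.t_COE FRA LOGD TBAS
  have FRM : Stmt_FRM := t_FRM FRA TBAS COE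
  have FSM : Stmt_FSM := t_FSM FRA FRM
  have FDL : Stmt_FDL := t_FDL FRA FRM
  have REG : Stmt_REG := t_REG FRA LOGD TBAS FRM
  have TXT : Stmt_TXT := t_TXT FRA LOGD TBAS FRM
  have EXF : Stmt_EXF := t_EXF FRA TBAS LOGD FRM FSM
  have LOC : Stmt_LOC := t_LOC t_DIV
  have UNQ : Stmt_UNQ := t_UNQ LOC
  have HFK : Stmt_HFK := t_HFK t_HLI t_HFR
  have TRD : Stmt_TRD := t_TRD t_SPL HFK
  have TRB : Stmt_TRB := t_TRB HFK
  have NHP : Stmt_NHP := t_NHP t_HFR HFK TRD TRB TBAS REG FSM t_OLC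
  have GHO : Stmt_GHO := t_GHO t_HFR t_OLC t_DIV LOC
  have RED : Stmt_RED := t_RED NHP GHO TRB TBAS FSM TXT t_DIV
  have GAV : Stmt_GAV := t_GAV (t_GAUT TBAS FRM)
  have KCO : Stmt_KCO := t_KCO TRD
  have TOR : Stmt_TOR := t_TOR KCO t_SPL t_HLI t_HFR HFK TRB
  have TRAY : Stmt_TRAY := t_TRAY t_HT1
  have PSI : Stmt_PSI := t_PSI KCO RED
  have TDC : Stmt_TDC := t_TDC t_MOI MldGeo.t_CON TRAY PSI GAV t_IDO FDL TBAS
  have QGAL : Stmt_QGAL := t_QGAL t_EXR t_EXT t_INE EXF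
  have QPUL : Stmt_QPUL := t_PULQ QGAL UNQ TXT FSM TBAS
  have SHF : Stmt_SHF := t_SHF t_POW
  have DDER : Stmt_DDER := t_DDER FRA TBAS LOGD FRM
  have FNC : Stmt_FNC := t_FNC t_CH1 t_VDM
  have RSI : Stmt_RSI := t_RSI t_CH1 FNC
  have LGB : Stmt_LGB := t_LGB t_CH1 FRA DDER TBAS
  have QV : Stmt_QV := t_QV t_EIG t_COC t_LAU t_EXPL t_RATF t_CH1 (t_CH2 t_CH1) t_EMBK RSI LGB t_DVL
    (t_ROT t_CH1)
  have QLG : Stmt_QLG := t_QLG FRA DDER t_EIG TBAS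
  have INVP : Stmt_INVP := t_INVP QGAL QPUL GAV TRAY FDL TBAS
  have HLM : S_HLM := t_HLM t_WRD t_HGT
  have PTH : S_PTH := t_PTH t_WRD (t_COE t_WRD) HLM
  have K3 : S_K3 := fun G π T T' D hn hQ hC hLC hat g hg hE hCo _ A hm hA hc hI =>
    k3 TBAS FRM TXT QGAL t_QAT QPUL t_EXQ t_FGI t_LAT t_TAZ t_THT t_PRM t_NIN t_RAM t_TRI t_TRZ
      t_EFC t_CON G π T T' D hn hQ hC hLC hat g hg hE hCo A hm hA hc hI
  exact asm TBAS FRM FRA FSM FDL TXT UNQ REG t_DIV t_IDO t_LAU t_RATF QGAL t_QAT QPUL t_POW SHF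
    QV QLG TOR TDC t_QMON INVP (t_TQM t_POW) t_WRD PTH t_LIN t_CAN t_JAC t_REL t_PRD t_LGD t_IND
    t_NUL t_LOV t_LOW t_HEN t_GPT t_SOL t_EMB t_DVG t_MLO t_ROG t_INR t_MUA t_IDM t_TQN t_NDA
    t_LCN t_NCO t_TCO t_FIN t_ACU MldG.tag t_DCC K3 n N D hD x hx

end UNC
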