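import Pool.Agent.MldX.Un

/-!
# The set `unMld` contains the sets of the earlier theorems
-/

set_option autoImplicit false

namespace MldX

noncomputable section

variable {n N : ℕ}

theorem ndMld_subset_unMld (n N : ℕ) (D : Set ℝ) : ndMld n N D ⊆ unMld n N D := by
  rintro a ⟨X, Y, G, π, T, T', hQ, hC, hLC, hG, h⟩
  refine ⟨X, Y, G, π, T, T', hQ, hC, hLC, fun g hg => ?_, h⟩
  rcases hG g hg with h1 | ⟨h1, h2, h3⟩
  · exact Or.inl h1
  · exact Or.inr ⟨h1, h2, Or.inl h3⟩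

theorem isQuot_bot (X : Germ n) : IsQuot (⊥ : Subgroup X.Aut) (AlgHom.id ℂ X.K : Map X X) := by
  refine ⟨inferInstance, ?_, ?_, ?_, ?_, ?_⟩
  · intro g hg a ha
    rw [Subgroup.mem_bot.1 hg]
    exact ha
  · intro g hg a ha
    rw [Subgroup.mem_bot.1 hg]
    exact ha
  · intro a
    refine ⟨fun _ g hg => ?_, fun _ => ⟨a, rfl⟩⟩
    rw [Subgroup.mem_bot.1 hg]
    rfl
  · exact fun b => Iff.rfl
  · exact fun b => Iff.rfl

theorem over_self {X : Germ n} {w v : DivVal n X.K} {e : ℕ}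
    (h : LiesOver (AlgHom.id ℂ X.K : Map X X) w v e) : w = v ∧ e = 1 := by
  obtain ⟨h1, h2⟩ := h
  have h3 : ∀ b : X.K, w.ord b = e * v.ord b := h2
  obtain ⟨t, ht, h4⟩ := w.unif
  have h5 : (1 : ℤ) = e * v.ord t := by rw [← h3, h4]
  have h6 : e = 1 := by
    have h7 : (e : ℤ) ∣ 1 := ⟨_, h5⟩
    have h8 := Int.eq_one_of_dvd_one (by positivity) h7
    exact_mod_cast h8
  refine ⟨?_, h6⟩
  have h9 : w.ord = v.ord := by
    funext b
    rw [h3, h6]
    simp
  obtain ⟨o, a1, a2, a3, a4, a5, a6⟩ := w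
  obtain ⟨o', b1, b2, b3, b4, b5, b6⟩ := v
  simp only at h9
  subst h9
  rfl

theorem crepant_self {X : Germ n} (T : Triple X) :
    Crepant (AlgHom.id ℂ X.K : Map X X) T T := by
  constructor
  · intro w v e h _
    obtain ⟨rfl, rfl⟩ := over_self h
    simp
  · intro w v e h _
    obtain ⟨rfl, rfl⟩ := over_self h
    simp

/-- All triples with a torus action of complexity at most one. -/
theorem torus_mem (N : ℕ) (D : Set ℝ) (X : Germ n) (T : Triple X) (m : ℕ) (A : TorusAction X m)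
    (hm : n ≤ m + 1) (hI : A.InvTriple T) (hE : T.Effective) (hL : T.LC) (hC : T.CoeffIn D) :
    T.mld ∈ unMld n N D := by
  refine ⟨X, X, ⊥, AlgHom.id ℂ X.K, T, T, isQuot_bot X, crepant_self T, hL, fun g hg => ?_, rfl⟩
  rw [Subgroup.mem_bot.1 hg]
  refine Or.inr ⟨hE, hC, Or.inr ⟨m, A, hm, fun u a ha => ha, hI, fun j => ?_⟩⟩
  exact ⟨(T.a j : Set X.R), fun a _ => rfl, (Ideal.span_eq _).symm⟩

end

end MldX
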