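import Pool.Agent.UNC.St
import Pool.Agent.MldGeo.QFin

/-!
# ASM: assembly
-/

set_option autoImplicit false

namespace UNC

open MldGeo NDQ MldAcc

noncomputable section

/-- The contribution of an element which commutes with a torus of complexity at most one. -/
theorem k3 (hTBAS : Stmt_TBAS) (hFRM : Stmt_FRM) (hTXT : Stmt_TXT) (hQGAL : Stmt_QGAL)
    (hQAT : Stmt_QAT) (hPUL : Stmt_QPUL) (hEXQ : S_EXQ) (hFGI : S_FGI) (hLAT : S_LAT)
    (hTAZ : S_TAZ) (hTHT : S_THT) (hPRM : S_PRM) (hNIN : S_NIN) (hRAM : S_RAM) (hTRI : S_TRI)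
    (hTRZ : S_TRZ) (hEFC : S_EFC) (hCON : S_CON) {n : ℕ} {X Y : Germ n}
    (G : Subgroup (X.K ≃ₐ[ℂ] X.K)) (π : Y.K →ₐ[ℂ] X.K) (T : Triple X) (T' : Triple Y) (D : Set ℝ)
    (hn : 0 < n) (hQ : IsQuot X Y G π) (hC : Crepant π T T') (hLC : T.LC) (hat : ∃ v, Y.At v)
    (g : X.K ≃ₐ[ℂ] X.K) (hg : g ∈ G) (hE : T.Effective) (hD : T.CoeffIn D) {m : ℕ}
    (A : MldG.TorusAction X m) (hm : n ≤ m + 1) (hA : A.InvTriple T) (hc : Comm A g)
    (hI : InvGen T (Subgroup.zpowers g)) :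
    ∃ q ∈ torSet n (cset D), Contrib π T' g q := by
  have hle : Subgroup.zpowers g ≤ G := by
    rw [Subgroup.zpowers_le]
    exact hg
  have : Finite G := hQ.finite
  have hfin : Finite (Subgroup.zpowers g) :=
    Finite.of_injective (Subgroup.inclusion hle) (Subgroup.inclusion_injective hle)
  obtain ⟨Z, ι, hZ⟩ := hEXQ hFGI X (Subgroup.zpowers g) hfin
    (fun h hh => hQ.map_R h (hle hh)) (fun h hh => hQ.map_m h (hle hh))
  have hcomm : ∀ h ∈ Subgroup.zpowers g, Comm A h := by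
    have h1 : ∀ k : ℕ, Comm A (g ^ k) := by
      intro k
      induction k with
      | zero =>
        intro u a b ha hb
        have h2 : b = a := Subtype.ext (by rw [hb, pow_zero]; rfl)
        rw [h2]
        exact ha
      | succ k ih =>
        intro u a b ha hb
        rw [pow_succ'] at hb
        have h3 : (g ^ k) (a : X.K) ∈ X.R := hQ.map_R (g ^ k) (G.pow_mem hg k) a a.2
        exact hc u ⟨_, h3⟩ b (ih u a ⟨_, h3⟩ ha rfl) hb
    intro h hh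
    have h4 : IsOfFinOrder g := by
      have h5 := isOfFinOrder_of_finite (⟨g, hg⟩ : G)
      exact isOfFinOrder_iff_pow_eq_one.2 ⟨orderOf (⟨g, hg⟩ : G), h5.orderOf_pos,
        congrArg Subtype.val (pow_orderOf_eq_one (⟨g, hg⟩ : G))⟩
    obtain ⟨k, rfl⟩ := (Submonoid.mem_powers_iff _ _).1 (h4.mem_powers_iff_mem_zpowers.2 hh)
    exact h1 k
  obtain ⟨B, hB⟩ := hTAZ hLAT X Z (Subgroup.zpowers g) ι hZ A hcomm
  obtain ⟨TZ, φ, h1, h2, h3⟩ := hTRZ hQGAL hTBAS hFRM hTXT hTRI X Y Z G (Subgroup.zpowers g) π ι T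
    T' hn hQ hC hZ hle hI
  obtain ⟨h4, h5, h6, h7⟩ := hEFC hQGAL hPUL hTHT hPRM hNIN hRAM X Z (Subgroup.zpowers g) ι T TZ φ D
    hn hZ h3 h1 h2 A B hcomm hB hA hE hLC hD
  exact ⟨TZ.mld, ⟨Z, TZ, m, B, hm, h4, h5, h6, h7, rfl⟩,
    hCON hQGAL hQAT hPUL hTHT X Y Z G π ι T T' TZ hn hQ hC hLC g hg hZ h3 hat⟩

/-- ACC for torus actions of complexity at most one. -/
theorem acc_torSet (hTAG : MldG.Stmt_TAG) {n : ℕ} {D : Set ℝ} (hD : D.IsWF) (x : ℕ → ℝ)
    (hx : ∀ k, x k ∈ torSet n D) : ¬ StrictMono x := by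
  choose X T m A h1 h2 h3 h4 h5 h6 using hx
  have h7 := hTAG n D hD X T m A h1 h2 h3 h4 h5
  have h8 : (fun k => (T k).mld) = x := funext h6
  rwa [h8] at h7

end

end UNC
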